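import Mathlib

/-!
Lattice polytopes given by their vertex sets, and elementary moves.
-/

open Finset

namespace Pool.Agent.Q254.PolyMove

/-- Lattice points of `ℝ^d`. -/
abbrev Pt (d : ℕ) := Fin d → ℤ

/-- The value at the lattice point `v` of the linear functional with coefficient vector `a`. -/
def ev {d : ℕ} (a : Fin d → ℝ) (v : Pt d) : ℝ := ∑ i, a i * (v i : ℝ)

/-- Every point of `V` is a vertex of the convex hull of `V`: it is the unique maximiser over `V`
of some linear functional. -/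
def ConvexPosition {d : ℕ} (V : Finset (Pt d)) : Prop :=
  ∀ v ∈ V, ∃ a : Fin d → ℝ, ∀ u ∈ V, u ≠ v → ev a u < ev a v

/-- `V` is not contained in an affine hyperplane, i.e. its convex hull is `d`-dimensional. -/
def FullDim {d : ℕ} (V : Finset (Pt d)) : Prop :=
  ∀ (a : Fin d → ℝ) (c : ℝ), (∀ v ∈ V, ev a v = c) → a = 0

/-- `V` is the vertex set of a `d`-dimensional lattice polytope. -/
def IsPolytope {d : ℕ} (V : Finset (Pt d)) : Prop := ConvexPosition V ∧ FullDim V

open Classical in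
/-- The `d`-dimensional lattice polytopes (given by their vertex sets) contained in the box
`∏ [0, b i]`. -/
noncomputable def polysBox {d : ℕ} (b : Pt d) : Finset (Finset (Pt d)) :=
  (Finset.Icc (0 : Pt d) b).powerset.filter IsPolytope

/-- The vertices of `Λ(d,k)`: the `d`-dimensional lattice polytopes in `[0,k]^d`. -/
noncomputable def polys (d k : ℕ) : Finset (Finset (Pt d)) := polysBox (fun _ => (k : ℤ))

/-- Adjacency in `Λ(d)`: one polytope is obtained from the other by inserting one vertex. -/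
def Move {d : ℕ} (A B : Finset (Pt d)) : Prop :=
  (∃ x, x ∉ A ∧ B = insert x A) ∨ (∃ x, x ∉ B ∧ A = insert x B)

open Classical in
/-- The number of edges of `Λ(d,k)` between `S` and its complement. -/
noncomputable def bdry (d k : ℕ) (S : Finset (Finset (Pt d))) : ℕ :=
  #((S ×ˢ (polys d k \ S)).filter (fun p => Move p.1 p.2))

open Classical in
/-- The degree of the polytope `A` in `Λ(d,k)`. -/
noncomputable def deg (d k : ℕ) (A : Finset (Pt d)) : ℕ :=
  #((polys d k).filter (fun B => Move A B))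

/-- The volume (sum of degrees) of a set of polytopes. -/
noncomputable def vol (d k : ℕ) (S : Finset (Finset (Pt d))) : ℕ := ∑ A ∈ S, deg d k A

/-- The edge expansion `h(Λ(d,k))`. -/
noncomputable def hExp (d k : ℕ) : ℝ :=
  sInf {r : ℝ | ∃ S : Finset (Finset (Pt d)), S ⊆ polys d k ∧ S.Nonempty ∧
    2 * #S ≤ #(polys d k) ∧ r = (bdry d k S : ℝ) / (#S : ℝ)}

/-- The conductance `Φ(Λ(d,k))`. -/
noncomputable def phiExp (d k : ℕ) : ℝ :=
  sInf {r : ℝ | ∃ S : Finset (Finset (Pt d)), S ⊆ polys d k ∧ 0 < vol d k S ∧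
    2 * vol d k S ≤ vol d k (polys d k) ∧ r = (bdry d k S : ℝ) / (vol d k S : ℝ)}

lemma ev_two (a : Fin 2 → ℝ) (v : Pt 2) : ev a v = a 0 * (v 0 : ℝ) + a 1 * (v 1 : ℝ) := by
  unfold ev; rw [Fin.sum_univ_two]

lemma mem_polysBox {d : ℕ} {b : Pt d} {V : Finset (Pt d)} :
    V ∈ polysBox b ↔ (∀ v ∈ V, ∀ i, 0 ≤ v i ∧ v i ≤ b i) ∧ IsPolytope V := by
  classical
  unfold polysBox
  rw [Finset.mem_filter, Finset.mem_powerset]
  constructor
  · rintro ⟨h1, h2⟩
    refine ⟨fun v hv i => ?_, h2⟩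
    have := Finset.mem_Icc.1 (h1 hv)
    exact ⟨this.1 i, this.2 i⟩
  · rintro ⟨h1, h2⟩
    refine ⟨fun v hv => ?_, h2⟩
    rw [Finset.mem_Icc]
    exact ⟨fun i => (h1 v hv i).1, fun i => (h1 v hv i).2⟩

lemma mem_polys {d k : ℕ} {V : Finset (Pt d)} :
    V ∈ polys d k ↔ (∀ v ∈ V, ∀ i, 0 ≤ v i ∧ v i ≤ (k:ℤ)) ∧ IsPolytope V := by
  unfold polys; exact mem_polysBox

end Pool.Agent.Q254.PolyMove
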