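import Mathlib
import Pool.Agent.Q254.PolyMove.Defs

/-!
A set of lattice points in convex position in `[0,k]^2` has `O(k^(2/3))` points.
-/

open Finset

namespace Pool.Agent.Q254.PolyMove

/-- The chain lemma. -/
theorem chain_bound {ι : Type*} [DecidableEq ι] (A : Finset ι) (X Y : ι → ℤ) (k M : ℕ)
    (hX : ∀ v ∈ A, 0 ≤ X v ∧ X v ≤ k)
    (hα : ∀ v ∈ A, ∃ α : ℝ, |α| ≤ 1 ∧ ∀ u ∈ A, u ≠ v → α * X u + Y u < α * X v + Y v) :
    #A ≤ 1 + M * (2*M+1) + (k+1)/(M+1) := by
  classical
  choose! α hα1 hα2 using hα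
  -- two point facts
  have fact : ∀ u ∈ A, ∀ v ∈ A, X u < X v →
      -(α v) * ((X v : ℝ) - X u) < (Y v : ℝ) - Y u ∧ (Y v : ℝ) - Y u < -(α u) * ((X v : ℝ) - X u) := by
    intro u hu v hv huv
    have hne : u ≠ v := fun h => by rw [h] at huv; exact lt_irrefl _ huv
    have h1 := hα2 u hu v hv hne.symm
    have h2 := hα2 v hv u hu hne
    constructor <;> nlinarith
  have hinj : ∀ u ∈ A, ∀ v ∈ A, X u = X v → u = v := by
    intro u hu v hv huv
    by_contra hne
    have h1 := hα2 u hu v hv (fun h => hne h.symm)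
    have h2 := hα2 v hv u hu hne
    rw [huv] at h1 h2
    linarith
  set A' := A.filter (fun v => ∃ u ∈ A, X v < X u) with hA'
  have hnext : ∀ v ∈ A', ∃ n ∈ A, X v < X n ∧ ∀ u ∈ A, X v < X u → X n ≤ X u := by
    intro v hv
    rw [hA', Finset.mem_filter] at hv
    obtain ⟨u, hu, huv⟩ := hv.2
    obtain ⟨n, hn, hmin⟩ := Finset.exists_min_image (A.filter (fun u => X v < X u)) X
      ⟨u, Finset.mem_filter.2 ⟨hu, huv⟩⟩
    rw [Finset.mem_filter] at hn
    exact ⟨n, hn.1, hn.2, fun u hu huv => hmin u (Finset.mem_filter.2 ⟨hu, huv⟩)⟩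
  choose! n hnA hnlt hnmin using hnext
  have hA'A : ∀ v ∈ A', v ∈ A := fun v hv => (Finset.mem_filter.1 hv).1
  -- the complement of A' has at most one element
  have hcompl : #(A \ A') ≤ 1 := by
    rw [Finset.card_le_one]
    intro u hu v hv
    rw [Finset.mem_sdiff, hA', Finset.mem_filter] at hu hv
    apply hinj u hu.1 v hv.1
    rcases lt_trichotomy (X u) (X v) with h | h | h
    · exact absurd ⟨hu.1, v, hv.1, h⟩ hu.2
    · exact h
    · exact absurd ⟨hv.1, u, hu.1, h⟩ hv.2
  set B1 := A'.filter (fun v => X (n v) - X v ≤ M) with hB1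
  set B2 := A'.filter (fun v => ¬ (X (n v) - X v ≤ M)) with hB2
  have hB : #B1 + #B2 = #A' := by
    rw [hB1, hB2]; exact Finset.card_filter_add_card_filter_not _
  have hc1 : #B1 ≤ M * (2*M+1) := by
    have hmap : ∀ v ∈ B1, ((X (n v) - X v, Y (n v) - Y v) : ℤ × ℤ) ∈
        (Finset.Icc (1:ℤ) M) ×ˢ (Finset.Icc (-(M:ℤ)) M) := by
      intro v hv
      rw [hB1, Finset.mem_filter] at hv
      have hvA := hA'A v hv.1
      have hlt := hnlt v hv.1
      have hf := fact v hvA (n v) (hnA v hv.1) hlt
      have ha1 := abs_le.1 (hα1 v hvA)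
      have ha2 := abs_le.1 (hα1 (n v) (hnA v hv.1))
      have hpos : (0:ℝ) < (X (n v) : ℝ) - X v := by
        have : (X v : ℝ) < X (n v) := by exact_mod_cast hlt
        linarith
      have hy1 : (Y (n v) : ℝ) - Y v ≤ (X (n v) : ℝ) - X v := by nlinarith
      have hy2 : -((X (n v) : ℝ) - X v) ≤ (Y (n v) : ℝ) - Y v := by nlinarith
      have hy1' : Y (n v) - Y v ≤ X (n v) - X v := by exact_mod_cast hy1
      have hy2' : -(X (n v) - X v) ≤ Y (n v) - Y v := by exact_mod_cast hy2
      rw [Finset.mem_product, Finset.mem_Icc, Finset.mem_Icc]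
      refine ⟨⟨?_, hv.2⟩, ?_, ?_⟩ <;> simp only <;> omega
    have hinj1 : Set.InjOn (fun v => ((X (n v) - X v, Y (n v) - Y v) : ℤ × ℤ)) (B1 : Set ι) := by
      have key : ∀ v ∈ B1, ∀ v' ∈ B1, X v < X v' → X (n v) - X v = X (n v') - X v' →
          Y (n v) - Y v = Y (n v') - Y v' → False := by
        intro v hv v' hv' hlt hx hy
        rw [hB1, Finset.mem_filter] at hv hv'
        have hvA := hA'A v hv.1
        have hvA' := hA'A v' hv'.1
        have f1 := (fact v hvA (n v) (hnA v hv.1) (hnlt v hv.1)).1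
        have f2 := (fact v' hvA' (n v') (hnA v' hv'.1) (hnlt v' hv'.1)).2
        have hxR : (X (n v) : ℝ) - X v = (X (n v') : ℝ) - X v' := by exact_mod_cast hx
        have hyR : (Y (n v) : ℝ) - Y v = (Y (n v') : ℝ) - Y v' := by exact_mod_cast hy
        rw [← hxR, ← hyR] at f2
        have hpos : (0:ℝ) < (X (n v) : ℝ) - X v := by
          have : (X v : ℝ) < X (n v) := by exact_mod_cast hnlt v hv.1
          linarith
        have hlt2 : α v' < α (n v) := by
          by_contra hcon
          have : α (n v) ≤ α v' := not_lt.1 hcon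
          nlinarith
        have hle := hnmin v hv.1 v' hvA' hlt
        rcases hle.lt_or_eq with h | h
        · have f3 := fact (n v) (hnA v hv.1) v' hvA' h
          have hpos2 : (0:ℝ) < (X v' : ℝ) - X (n v) := by
            have : (X (n v) : ℝ) < X v' := by exact_mod_cast h
            linarith
          nlinarith [f3.1, f3.2]
        · have := hinj (n v) (hnA v hv.1) v' hvA' h
          rw [this] at hlt2
          exact lt_irrefl _ hlt2
      intro v hv v' hv' h
      simp only [Prod.mk.injEq] at h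
      rw [Finset.mem_coe] at hv hv'
      rcases lt_trichotomy (X v) (X v') with h1 | h1 | h1
      · exact (key v hv v' hv' h1 h.1 h.2).elim
      · exact hinj v (hA'A v (Finset.mem_filter.1 hv).1) v' (hA'A v' (Finset.mem_filter.1 hv').1) h1
      · exact (key v' hv' v hv h1 h.1.symm h.2.symm).elim
    have := Finset.card_le_card_of_injOn _ hmap hinj1
    rw [Finset.card_product, Int.card_Icc, Int.card_Icc] at this
    have e1 : ((M:ℤ) + 1 - 1).toNat = M := by omega
    have e2 : ((M:ℤ) + 1 - (-(M:ℤ))).toNat = 2*M+1 := by omega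
    rw [e1, e2] at this
    exact this
  have hc2 : #B2 ≤ (k+1)/(M+1) := by
    rw [Nat.le_div_iff_mul_le (by omega)]
    have hmap : ∀ p ∈ B2 ×ˢ Finset.range (M+1), X p.1 + (p.2 : ℤ) ∈ Finset.Icc (0:ℤ) k := by
      intro p hp
      rw [Finset.mem_product, Finset.mem_range, hB2, Finset.mem_filter] at hp
      have h1 := hX p.1 (hA'A _ hp.1.1)
      have h2 := hX (n p.1) (hnA _ hp.1.1)
      rw [Finset.mem_Icc]
      have h3 := hp.1.2
      have h4 := hp.2
      constructor <;> omega
    have hinj2 : Set.InjOn (fun p : ι × ℕ => X p.1 + (p.2 : ℤ)) (B2 ×ˢ Finset.range (M+1) : Finset (ι × ℕ)) := by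
      have key : ∀ v ∈ B2, ∀ v' ∈ B2, ∀ j j' : ℕ, j < M+1 → X v < X v' → X v + j = X v' + j' → False := by
        intro v hv v' hv' j j' hj hlt heq
        rw [hB2, Finset.mem_filter] at hv hv'
        have hle := hnmin v hv.1 v' (hA'A _ hv'.1) hlt
        have h3 := hv.2
        omega
      rintro ⟨v, j⟩ h1 ⟨v', j'⟩ h2 h3
      rw [Finset.mem_coe, Finset.mem_product, Finset.mem_range] at h1 h2
      simp only at h1 h2 h3
      rcases lt_trichotomy (X v) (X v') with h | h | h
      · exact (key v h1.1 v' h2.1 j j' h1.2 h h3).elim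
      · have hvv := hinj v (hA'A v (Finset.mem_filter.1 h1.1).1) v' (hA'A v' (Finset.mem_filter.1 h2.1).1) h
        have : j = j' := by omega
        rw [hvv, this]
      · exact (key v' h2.1 v h1.1 j' j h2.2 h h3.symm).elim
    have := Finset.card_le_card_of_injOn _ hmap hinj2
    rw [Finset.card_product, Finset.card_range, Int.card_Icc] at this
    have e1 : ((k:ℤ) + 1 - 0).toNat = k + 1 := by omega
    rw [e1] at this
    exact this
  have hAA : #A = #(A \ A') + #A' := by
    have : A' ⊆ A := Finset.filter_subset _ _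
    rw [Finset.card_sdiff_add_card_eq_card this]
  omega

/-- At most `4 (1 + M (2M+1) + (k+1)/(M+1))` points in convex position. -/
theorem card_convexPosition (V : Finset (Pt 2)) (k M : ℕ) (hV : ConvexPosition V)
    (hk : ∀ v ∈ V, ∀ i, 0 ≤ v i ∧ v i ≤ (k:ℤ)) :
    #V ≤ 4 * (1 + M * (2*M+1) + (k+1)/(M+1)) := by
  classical
  set C := 1 + M * (2*M+1) + (k+1)/(M+1) with hC
  -- four parts
  let part (X Y : Pt 2 → ℤ) : Finset (Pt 2) := V.filter (fun v => ∃ α : ℝ, |α| ≤ 1 ∧
    ∀ u ∈ V, u ≠ v → α * X u + Y u < α * X v + Y v)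
  have hpart : ∀ X Y : Pt 2 → ℤ, (∀ v ∈ V, 0 ≤ X v ∧ X v ≤ k) → #(part X Y) ≤ C := by
    intro X Y hX
    apply chain_bound (part X Y) X Y k M
    · intro v hv
      exact hX v (Finset.mem_filter.1 hv).1
    · intro v hv
      obtain ⟨hvV, α, h1, h2⟩ := Finset.mem_filter.1 hv
      exact ⟨α, h1, fun u hu hne => h2 u (Finset.mem_filter.1 hu).1 hne⟩
  have hC1 : 1 ≤ C := by
    rw [hC]
    exact Nat.le_add_right_of_le (Nat.le_add_right _ _)
  clear_value C
  by_cases hcard : #V ≤ 1
  · omega
  have hcover : V ⊆ ((part (fun v => v 0) (fun v => v 1)) ∪ (part (fun v => v 0) (fun v => - v 1))) ∪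
      ((part (fun v => v 1) (fun v => v 0)) ∪ (part (fun v => v 1) (fun v => - v 0))) := by
    intro v hv
    obtain ⟨a, ha⟩ := hV v hv
    have hne : ∃ u ∈ V, u ≠ v := by
      by_contra hcon
      apply hcard
      rw [Finset.card_le_one]
      have : ∀ u ∈ V, u = v := fun u hu => by
        by_contra h
        exact hcon ⟨u, hu, h⟩
      intro x hx y hy
      rw [this x hx, this y hy]
    obtain ⟨u0, hu0, hu0v⟩ := hne
    simp only [ev_two] at ha
    rw [Finset.mem_union, Finset.mem_union, Finset.mem_union]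
    have hpos : a 0 ≠ 0 ∨ a 1 ≠ 0 := by
      by_contra hcon
      rw [not_or, not_not, not_not] at hcon
      have := ha u0 hu0 hu0v
      rw [hcon.1, hcon.2] at this
      simp at this
    rcases le_total |a 0| |a 1| with hle | hle
    · have h1 : a 1 ≠ 0 := by
        intro h
        rw [h, abs_zero] at hle
        have : a 0 = 0 := abs_eq_zero.1 (le_antisymm hle (abs_nonneg _))
        rcases hpos with h' | h'
        · exact h' this
        · exact h' h
      rcases lt_or_gt_of_ne h1 with hneg | hp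
      · left; right
        rw [Finset.mem_filter]
        refine ⟨hv, a 0 / |a 1|, ?_, ?_⟩
        · rw [abs_div, abs_abs]; exact (div_le_one (abs_pos.2 h1)).2 hle
        · intro u hu hne
          have := ha u hu hne
          rw [abs_of_neg hneg]
          push_cast
          rw [← sub_pos] at this ⊢
          have e : a 0 / -a 1 * (v 0 : ℝ) + -(v 1 : ℝ) - (a 0 / -a 1 * (u 0 : ℝ) + -(u 1 : ℝ)) =
              (a 0 * v 0 + a 1 * v 1 - (a 0 * u 0 + a 1 * u 1)) / (- a 1) := by
            field_simp; ring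
          rw [e]
          exact div_pos this (by linarith)
      · left; left
        rw [Finset.mem_filter]
        refine ⟨hv, a 0 / |a 1|, ?_, ?_⟩
        · rw [abs_div, abs_abs]; exact (div_le_one (abs_pos.2 h1)).2 hle
        · intro u hu hne
          have := ha u hu hne
          rw [abs_of_pos hp]
          rw [← sub_pos] at this ⊢
          have e : a 0 / a 1 * (v 0 : ℝ) + (v 1 : ℝ) - (a 0 / a 1 * (u 0 : ℝ) + (u 1 : ℝ)) =
              (a 0 * v 0 + a 1 * v 1 - (a 0 * u 0 + a 1 * u 1)) / (a 1) := by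
            field_simp
          rw [e]
          exact div_pos this hp
    · have h1 : a 0 ≠ 0 := by
        intro h
        rw [h, abs_zero] at hle
        have : a 1 = 0 := abs_eq_zero.1 (le_antisymm hle (abs_nonneg _))
        rcases hpos with h' | h'
        · exact h' h
        · exact h' this
      rcases lt_or_gt_of_ne h1 with hneg | hp
      · right; right
        rw [Finset.mem_filter]
        refine ⟨hv, a 1 / |a 0|, ?_, ?_⟩
        · rw [abs_div, abs_abs]; exact (div_le_one (abs_pos.2 h1)).2 hle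
        · intro u hu hne
          have := ha u hu hne
          rw [abs_of_neg hneg]
          push_cast
          rw [← sub_pos] at this ⊢
          have e : a 1 / -a 0 * (v 1 : ℝ) + -(v 0 : ℝ) - (a 1 / -a 0 * (u 1 : ℝ) + -(u 0 : ℝ)) =
              (a 0 * v 0 + a 1 * v 1 - (a 0 * u 0 + a 1 * u 1)) / (- a 0) := by
            field_simp; ring
          rw [e]
          exact div_pos this (by linarith)
      · right; left
        rw [Finset.mem_filter]
        refine ⟨hv, a 1 / |a 0|, ?_, ?_⟩
        · rw [abs_div, abs_abs]; exact (div_le_one (abs_pos.2 h1)).2 hle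
        · intro u hu hne
          have := ha u hu hne
          rw [abs_of_pos hp]
          rw [← sub_pos] at this ⊢
          have e : a 1 / a 0 * (v 1 : ℝ) + (v 0 : ℝ) - (a 1 / a 0 * (u 1 : ℝ) + (u 0 : ℝ)) =
              (a 0 * v 0 + a 1 * v 1 - (a 0 * u 0 + a 1 * u 1)) / (a 0) := by
            field_simp
            ring
          rw [e]
          exact div_pos this hp
  have h1 := hpart (fun v => v 0) (fun v => v 1) (fun v hv => hk v hv 0)
  have h2 := hpart (fun v => v 0) (fun v => - v 1) (fun v hv => hk v hv 0)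
  have h3 := hpart (fun v => v 1) (fun v => v 0) (fun v hv => hk v hv 1)
  have h4 := hpart (fun v => v 1) (fun v => - v 0) (fun v hv => hk v hv 1)
  have h5 := Finset.card_le_card hcover
  have h6 := Finset.card_union_le ((part (fun v => v 0) (fun v => v 1)) ∪ (part (fun v => v 0) (fun v => - v 1)))
      ((part (fun v => v 1) (fun v => v 0)) ∪ (part (fun v => v 1) (fun v => - v 0)))
  have h7 := Finset.card_union_le (part (fun v => v 0) (fun v => v 1)) (part (fun v => v 0) (fun v => - v 1))
  have h8 := Finset.card_union_le (part (fun v => v 1) (fun v => v 0)) (part (fun v => v 1) (fun v => - v 0))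
  omega

end Pool.Agent.Q254.PolyMove
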