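import Mathlib
import Pool.Agent.Q254.PolyMove.Count

/-!
Subexponential growth of the number of lattice polygons in `[0,k]^2`, and a pigeonhole argument.
-/

open Finset

namespace Pool.Agent.Q254.PolyMove

open Classical in
lemma subsets_le {α : Type*} (B : Finset α) (n : ℕ) :
    #(B.powerset.filter (fun V => #V ≤ n)) ≤ (#B + 1)^n := by
  induction n with
  | zero =>
    have : B.powerset.filter (fun V => #V ≤ 0) ⊆ {∅} := by
      intro V hV
      rw [Finset.mem_filter] at hV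
      rw [Finset.mem_singleton]
      exact Finset.card_eq_zero.1 (by omega)
    simpa using Finset.card_le_card this
  | succ n ih =>
    have hsub : B.powerset.filter (fun V => #V ≤ n+1) ⊆
        (B.powerset.filter (fun V => #V ≤ n)) ∪
        ((B.powerset.filter (fun V => #V ≤ n)) ×ˢ B).image (fun p => insert p.2 p.1) := by
      intro V hV
      rw [Finset.mem_filter, Finset.mem_powerset] at hV
      rw [Finset.mem_union]
      by_cases h : #V ≤ n
      · left
        rw [Finset.mem_filter, Finset.mem_powerset]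
        exact ⟨hV.1, h⟩
      · right
        have hne : V.Nonempty := by
          rw [← Finset.card_pos]; omega
        obtain ⟨x, hx⟩ := hne
        rw [Finset.mem_image]
        refine ⟨(V.erase x, x), ?_, Finset.insert_erase hx⟩
        rw [Finset.mem_product, Finset.mem_filter, Finset.mem_powerset]
        refine ⟨⟨(Finset.erase_subset _ _).trans hV.1, ?_⟩, hV.1 hx⟩
        simp only
        rw [Finset.card_erase_of_mem hx]; omega
    calc _ ≤ _ := Finset.card_le_card hsub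
      _ ≤ _ := Finset.card_union_le _ _
      _ ≤ #(B.powerset.filter (fun V => #V ≤ n)) + #(B.powerset.filter (fun V => #V ≤ n)) * #B := by
        apply Nat.add_le_add_left
        exact Finset.card_image_le.trans (by rw [Finset.card_product])
      _ = #(B.powerset.filter (fun V => #V ≤ n)) * (#B + 1) := by ring
      _ ≤ (#B+1)^n * (#B + 1) := Nat.mul_le_mul_right _ ih
      _ = (#B+1)^(n+1) := by ring

lemma card_box (k : ℕ) : #(Finset.Icc (0 : Pt 2) (fun _ => (k:ℤ))) = (k+1)^2 := by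
  rw [Pi.card_Icc]
  simp

theorem polys_card_le (s : ℕ) : #(polys 2 (8^s)) ≤ 2^((6*s+3) * (20 * 4^s)) := by
  classical
  set M := 2^s with hM
  have hM1 : 1 ≤ M := Nat.one_le_two_pow
  have hk : 8^s = M^3 := by rw [hM, ← pow_mul, mul_comm, pow_mul]; norm_num
  have h4 : 4^s = M^2 := by rw [hM, ← pow_mul, mul_comm, pow_mul]; norm_num
  have hsub : polys 2 (8^s) ⊆ (Finset.Icc (0 : Pt 2) (fun _ => ((8^s : ℕ):ℤ))).powerset.filter
      (fun V => #V ≤ 20 * 4^s) := by
    intro V hV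
    have hV' := mem_polys.1 hV
    rw [Finset.mem_filter, Finset.mem_powerset]
    refine ⟨?_, ?_⟩
    · intro v hv
      rw [Finset.mem_Icc]
      exact ⟨fun i => (hV'.1 v hv i).1, fun i => (hV'.1 v hv i).2⟩
    · have h1 := card_convexPosition V (8^s) M hV'.2.1 hV'.1
      have h2 : (8^s+1)/(M+1) ≤ M^2 := by
        apply Nat.div_le_of_le_mul
        rw [hk]; nlinarith
      rw [h4]
      nlinarith
  refine (Finset.card_le_card hsub).trans ((subsets_le _ _).trans ?_)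
  rw [card_box, pow_mul 2 (6*s+3) (20*4^s)]
  apply Nat.pow_le_pow_left
  have h8 : 2^(6*s+3) = 8 * (8^s)^2 := by
    rw [pow_add, pow_mul, ← pow_mul 8 s 2, mul_comm s 2, pow_mul]; norm_num; ring
  rw [h8]
  have : 1 ≤ 8^s := Nat.one_le_pow _ _ (by norm_num)
  nlinarith

lemma exists_s (m : ℕ) : ∃ s : ℕ, (480*s+243)*m ≤ 2^s := by
  rcases Nat.eq_zero_or_pos m with h | h
  · exact ⟨0, by subst h; simp⟩
  refine ⟨2*(1203*m), ?_⟩
  have h1 : 1203*m < 2^(1203*m) := Nat.lt_two_pow_self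
  have h2 : 2^(2*(1203*m)) = 2^(1203*m) * 2^(1203*m) := by rw [two_mul, pow_add]
  rw [h2]
  set u := 1203*m with hu
  have h3 : (480*(2*u)+243)*m ≤ (u+1)*u := by nlinarith
  calc (480*(2*u)+243)*m ≤ (u+1)*u := h3
    _ ≤ 2^u * 2^u := Nat.mul_le_mul h1 h1.le

/-- pigeonhole -/
theorem pigeon (N T : ℕ → ℕ) (hN : Monotone N) (hT : Monotone T) (hTN : ∀ k, T k ≤ N k)
    (hT1 : ∀ k, 1 ≤ k → 1 ≤ T k) (hg : ∀ s, N (8^s) ≤ 2^((6*s+3) * (20 * 4^s))) (m : ℕ) (hm : 1 ≤ m) :
    ∃ K, 1 ≤ K ∧ N K ≤ 2 * N (K-1) ∧ T (K+m) ≤ 2 * T K ∧ N (K+m) ≤ 2 * N K := by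
  by_contra hcon
  push Not at hcon
  have step : ∀ j, 2 ≤ j → 2 * (N ((j-1)*m) * T ((j-1)*m)) ≤ N ((j+1)*m) * T ((j+1)*m) := by
    intro j hj
    have hK1 : 1 ≤ j*m := Nat.one_le_iff_ne_zero.2 (by positivity)
    have e1 : (j+1)*m = j*m+m := by ring
    have hle0 : (j-1)*m + m = j*m := by
      obtain ⟨i, rfl⟩ : ∃ i, j = i+1 := ⟨j-1, by omega⟩
      rw [Nat.add_sub_cancel]; ring
    have hNle : N ((j-1)*m) ≤ N (j*m) := hN (by omega)
    have hTle : T ((j-1)*m) ≤ T (j*m) := hT (by omega)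
    have hNle' : N (j*m) ≤ N ((j+1)*m) := hN (by omega)
    have hTle' : T (j*m) ≤ T ((j+1)*m) := hT (by omega)
    by_cases c1 : N (j*m) ≤ 2 * N (j*m-1)
    · by_cases c2 : T (j*m+m) ≤ 2 * T (j*m)
      · have c3 := hcon (j*m) hK1 c1 c2
        rw [← e1] at c3
        have h1 : 2 * N ((j-1)*m) ≤ N ((j+1)*m) := by omega
        calc 2 * (N ((j-1)*m) * T ((j-1)*m)) = (2 * N ((j-1)*m)) * T ((j-1)*m) := by ring
          _ ≤ N ((j+1)*m) * T ((j+1)*m) := Nat.mul_le_mul h1 (hTle.trans hTle')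
      · rw [← e1] at c2
        have h1 : 2 * T ((j-1)*m) ≤ T ((j+1)*m) := by omega
        calc 2 * (N ((j-1)*m) * T ((j-1)*m)) = N ((j-1)*m) * (2 * T ((j-1)*m)) := by ring
          _ ≤ N ((j+1)*m) * T ((j+1)*m) := Nat.mul_le_mul (hNle.trans hNle') h1
    · have h0 : N ((j-1)*m) ≤ N (j*m-1) := hN (by omega)
      have h1 : 2 * N ((j-1)*m) ≤ N ((j+1)*m) := by omega
      calc 2 * (N ((j-1)*m) * T ((j-1)*m)) = (2 * N ((j-1)*m)) * T ((j-1)*m) := by ring
        _ ≤ N ((j+1)*m) * T ((j+1)*m) := Nat.mul_le_mul h1 (hTle.trans hTle')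
  have pw : ∀ i, 2^i ≤ N ((2*i+1)*m) * T ((2*i+1)*m) := by
    intro i
    induction i with
    | zero =>
      have h1 := hT1 ((2*0+1)*m) (by omega)
      have h2 := hTN ((2*0+1)*m)
      rw [pow_zero]
      exact Nat.one_le_iff_ne_zero.2 (Nat.mul_ne_zero (by omega) (by omega))
    | succ i ih =>
      have := step (2*i+2) (by omega)
      rw [show 2*i+2-1 = 2*i+1 by omega, show 2*i+2+1 = 2*(i+1)+1 by ring] at this
      rw [pow_succ]; omega
  obtain ⟨s, hs⟩ := exists_s m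
  set E := (6*s+3) * (20 * 4^s) with hE
  have hbig : (2*(2*E+1)+1)*m ≤ 8^s := by
    have e8 : 8^s = 4^s * 2^s := by rw [← mul_pow]; norm_num
    have h4 : 1 ≤ 4^s := Nat.one_le_pow _ _ (by norm_num)
    rw [e8]
    calc (2*(2*E+1)+1)*m = (80*(6*s+3)*4^s + 3)*m := by rw [hE]; ring
      _ ≤ (80*(6*s+3)*4^s + 3*4^s)*m := by
        apply Nat.mul_le_mul_right; omega
      _ = 4^s * ((480*s+243)*m) := by ring
      _ ≤ 4^s * 2^s := Nat.mul_le_mul_left _ hs
  have h1 := pw (2*E+1)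
  have h2 : N ((2*(2*E+1)+1)*m) ≤ 2^E := (hN hbig).trans (hg s)
  have h3 : T ((2*(2*E+1)+1)*m) ≤ 2^E := (hTN _).trans h2
  have h4 : 2^(2*E+1) ≤ 2^E * 2^E := h1.trans (Nat.mul_le_mul h2 h3)
  rw [← pow_add] at h4
  have h5 := (Nat.pow_le_pow_iff_right (by norm_num : 1 < 2)).1 h4
  omega

end Pool.Agent.Q254.PolyMove
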