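import Mathlib
import Pool.Agent.Q254.PolyMove.Growth

/-!
Widening a lattice polygon with a unique top vertex by a horizontal edge.
-/

open Finset Filter Topology

namespace Pool.Agent.Q254.PolyMove

/-- horizontal shift by `q` -/
def sh (q : ℤ) (v : Pt 2) : Pt 2 := ![v 0 + q, v 1]

@[simp] lemma sh_zero (q : ℤ) (v : Pt 2) : sh q v 0 = v 0 + q := rfl
@[simp] lemma sh_one (q : ℤ) (v : Pt 2) : sh q v 1 = v 1 := rfl

lemma pt_ext {u v : Pt 2} (h0 : u 0 = v 0) (h1 : u 1 = v 1) : u = v := by
  funext i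
  fin_cases i
  · exact h0
  · exact h1

lemma sh_inj {q : ℤ} {u v : Pt 2} (h : sh q u = sh q v) : u = v := by
  have h0 := congrFun h 0
  have h1 := congrFun h 1
  simp only [sh_zero, sh_one] at h0 h1
  exact pt_ext (by omega) h1

/-- `v` is exposed by a functional with negative first coefficient -/
def HasL (V : Finset (Pt 2)) (v : Pt 2) : Prop :=
  ∃ a b : ℝ, a < 0 ∧ ∀ u ∈ V, u ≠ v → a * u 0 + b * u 1 < a * v 0 + b * v 1

/-- `v` is exposed by a functional with positive first coefficient -/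
def HasR (V : Finset (Pt 2)) (v : Pt 2) : Prop :=
  ∃ a b : ℝ, 0 < a ∧ ∀ u ∈ V, u ≠ v → a * u 0 + b * u 1 < a * v 0 + b * v 1

/-- perturbation of an exposing functional -/
lemma perturb (V : Finset (Pt 2)) (v : Pt 2) (a b e : ℝ)
    (h : ∀ u ∈ V, u ≠ v → a * u 0 + b * u 1 < a * v 0 + b * v 1) :
    ∃ ε : ℝ, 0 < ε ∧ ∀ u ∈ V, u ≠ v → (a + e * ε) * u 0 + b * u 1 < (a + e * ε) * v 0 + b * v 1 := by
  have h1 : ∀ u ∈ V, ∀ᶠ ε in 𝓝[>] (0:ℝ), u ≠ v →
      (a + e * ε) * u 0 + b * u 1 < (a + e * ε) * v 0 + b * v 1 := by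
    intro u hu
    by_cases hne : u = v
    · exact Filter.Eventually.of_forall (fun _ h => absurd hne h)
    · have hlt := h u hu hne
      have hcont1 : Tendsto (fun ε : ℝ => (a + e * ε) * (u 0 : ℝ) + b * u 1) (𝓝[>] 0)
          (𝓝 ((a + e * 0) * (u 0 : ℝ) + b * u 1)) := by
        apply tendsto_nhdsWithin_of_tendsto_nhds
        exact Continuous.tendsto (by fun_prop) 0
      have hcont2 : Tendsto (fun ε : ℝ => (a + e * ε) * (v 0 : ℝ) + b * v 1) (𝓝[>] 0)
          (𝓝 ((a + e * 0) * (v 0 : ℝ) + b * v 1)) := by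
        apply tendsto_nhdsWithin_of_tendsto_nhds
        exact Continuous.tendsto (by fun_prop) 0
      have hlt' : (a + e * 0) * (u 0 : ℝ) + b * u 1 < (a + e * 0) * (v 0 : ℝ) + b * v 1 := by
        simpa using hlt
      exact (hcont1.eventually_lt hcont2 hlt').mono (fun _ h _ => h)
  have h2 : ∀ᶠ ε in 𝓝[>] (0:ℝ), ∀ u ∈ V, u ≠ v →
      (a + e * ε) * u 0 + b * u 1 < (a + e * ε) * v 0 + b * v 1 := by
    rw [Filter.eventually_all_finset]
    exact h1
  have h3 : ∀ᶠ ε in 𝓝[>] (0:ℝ), 0 < ε := eventually_mem_nhdsWithin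
  obtain ⟨ε, hε1, hε2⟩ := (h3.and h2).exists
  exact ⟨ε, hε1, hε2⟩

lemma hasL_or_hasR {V : Finset (Pt 2)} (hV : ConvexPosition V) {v : Pt 2} (hv : v ∈ V) :
    HasL V v ∨ HasR V v := by
  obtain ⟨a, ha⟩ := hV v hv
  simp only [ev_two] at ha
  rcases lt_trichotomy (a 0) 0 with h | h | h
  · left; exact ⟨a 0, a 1, h, ha⟩
  · left
    obtain ⟨ε, hε, h2⟩ := perturb V v (a 0) (a 1) (-1) ha
    exact ⟨a 0 + -1 * ε, a 1, by rw [h]; linarith, h2⟩
  · right; exact ⟨a 0, a 1, h, ha⟩

lemma top_hasLR {V : Finset (Pt 2)} {t : Pt 2} (ht : ∀ u ∈ V, u ≠ t → u 1 < t 1) :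
    HasL V t ∧ HasR V t := by
  have h : ∀ u ∈ V, u ≠ t → (0:ℝ) * u 0 + 1 * u 1 < (0:ℝ) * t 0 + 1 * t 1 := by
    intro u hu hne
    have : (u 1 : ℝ) < t 1 := by exact_mod_cast ht u hu hne
    linarith
  constructor
  · obtain ⟨ε, hε, h2⟩ := perturb V t 0 1 (-1) h
    exact ⟨0 + -1*ε, 1, by linarith, h2⟩
  · obtain ⟨ε, hε, h2⟩ := perturb V t 0 1 1 h
    exact ⟨0 + 1*ε, 1, by linarith, h2⟩

open Classical in
/-- the widened polygon -/
noncomputable def widen (V : Finset (Pt 2)) (q : ℤ) : Finset (Pt 2) :=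
  V.filter (HasL V) ∪ (V.filter (HasR V)).image (sh q)

lemma mem_widen {V : Finset (Pt 2)} {q : ℤ} {w : Pt 2} :
    w ∈ widen V q ↔ (w ∈ V ∧ HasL V w) ∨ ∃ v ∈ V, HasR V v ∧ sh q v = w := by
  classical
  unfold widen
  rw [Finset.mem_union, Finset.mem_filter, Finset.mem_image]
  constructor
  · rintro (h | ⟨v, hv, rfl⟩)
    · exact Or.inl h
    · rw [Finset.mem_filter] at hv
      exact Or.inr ⟨v, hv.1, hv.2, rfl⟩
  · rintro (h | ⟨v, hv, hR, rfl⟩)
    · exact Or.inl h
    · exact Or.inr ⟨v, Finset.mem_filter.2 ⟨hv, hR⟩, rfl⟩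

/-- an element of the left part is exposed with negative coefficient in the widened polygon -/
lemma widen_hasL {V : Finset (Pt 2)} {q : ℤ} (hq : 0 < q) {w : Pt 2} (hw : w ∈ V)
    (h : HasL V w) : HasL (widen V q) w := by
  obtain ⟨a, b, ha, hab⟩ := h
  refine ⟨a, b, ha, fun u hu hne => ?_⟩
  have hqR : (0:ℝ) < q := by exact_mod_cast hq
  rcases mem_widen.1 hu with h1 | ⟨v, hv, -, rfl⟩
  · exact hab u h1.1 hne
  · simp only [sh_zero, sh_one]
    push_cast
    by_cases hvw : v = w
    · rw [hvw]; nlinarith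
    · have := hab v hv hvw
      nlinarith

lemma widen_hasR {V : Finset (Pt 2)} {q : ℤ} (hq : 0 < q) {v : Pt 2} (hv : v ∈ V)
    (h : HasR V v) : HasR (widen V q) (sh q v) := by
  obtain ⟨a, b, ha, hab⟩ := h
  refine ⟨a, b, ha, fun u hu hne => ?_⟩
  have hqR : (0:ℝ) < q := by exact_mod_cast hq
  simp only [sh_zero, sh_one]
  push_cast
  rcases mem_widen.1 hu with h1 | ⟨v', hv', -, rfl⟩
  · by_cases hvu : u = v
    · rw [hvu]; nlinarith
    · have := hab u h1.1 hvu
      nlinarith
  · have hvv : v' ≠ v := fun h => hne (by rw [h])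
    have := hab v' hv' hvv
    simp only [sh_zero, sh_one]
    push_cast
    nlinarith

lemma convexPosition_of_hasLR {W : Finset (Pt 2)} (h : ∀ w ∈ W, HasL W w ∨ HasR W w) :
    ConvexPosition W := by
  intro w hw
  rcases h w hw with ⟨a, b, -, hab⟩ | ⟨a, b, -, hab⟩
  · refine ⟨![a, b], fun u hu hne => ?_⟩
    rw [ev_two, ev_two]
    simpa using hab u hu hne
  · refine ⟨![a, b], fun u hu hne => ?_⟩
    rw [ev_two, ev_two]
    simpa using hab u hu hne

/-- `t` is the unique top vertex of `V` -/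
def UTop (V : Finset (Pt 2)) (t : Pt 2) : Prop := t ∈ V ∧ ∀ u ∈ V, u ≠ t → u 1 < t 1

lemma widen_isPolytope {V : Finset (Pt 2)} (hV : IsPolytope V) {t : Pt 2} (ht : UTop V t) {q : ℤ}
    (hq : 0 < q) : IsPolytope (widen V q) := by
  have htLR := top_hasLR ht.2
  have htW : t ∈ widen V q := mem_widen.2 (Or.inl ⟨ht.1, htLR.1⟩)
  have htW' : sh q t ∈ widen V q := mem_widen.2 (Or.inr ⟨t, ht.1, htLR.2, rfl⟩)
  constructor
  · apply convexPosition_of_hasLR
    intro w hw
    rcases mem_widen.1 hw with h1 | ⟨v, hv, hR, rfl⟩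
    · exact Or.inl (widen_hasL hq h1.1 h1.2)
    · exact Or.inr (widen_hasR hq hv hR)
  · intro a c hac
    have h1 := hac t htW
    have h2 := hac (sh q t) htW'
    rw [ev_two] at h1 h2
    simp only [sh_zero, sh_one] at h2
    push_cast at h2
    have hqR : (0:ℝ) < q := by exact_mod_cast hq
    have ha0 : a 0 = 0 := by
      have : a 0 * q = 0 := by linarith
      rcases mul_eq_zero.1 this with h | h
      · exact h
      · linarith
    -- some vertex at a different level
    have hex : ∃ u ∈ V, u 1 ≠ t 1 := by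
      by_contra hcon
      push Not at hcon
      have := hV.2 ![0, 1] (t 1) (by
        intro v hv
        rw [ev_two]
        simp [hcon v hv])
      have h0 := congrFun this 1
      simp at h0
    obtain ⟨u, hu, hut⟩ := hex
    have hex2 : ∃ z ∈ widen V q, z 1 = u 1 := by
      rcases hasL_or_hasR hV.1 hu with h | h
      · exact ⟨u, mem_widen.2 (Or.inl ⟨hu, h⟩), rfl⟩
      · exact ⟨sh q u, mem_widen.2 (Or.inr ⟨u, hu, h, rfl⟩), rfl⟩
    obtain ⟨z, hz, hzu⟩ := hex2
    have h3 := hac z hz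
    rw [ev_two, ha0] at h3
    rw [ha0] at h1
    have ha1 : a 1 = 0 := by
      have hne : (z 1 : ℝ) - t 1 ≠ 0 := by
        rw [hzu, sub_ne_zero]
        exact_mod_cast hut
      have : a 1 * ((z 1 : ℝ) - t 1) = 0 := by linarith
      rcases mul_eq_zero.1 this with h | h
      · exact h
      · exact absurd h hne
    funext i
    fin_cases i
    · exact ha0
    · exact ha1

/-- the top level of the widened polygon -/
lemma widen_top {V : Finset (Pt 2)} {t : Pt 2} (ht : UTop V t) {q : ℤ} {w : Pt 2}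
    (hw : w ∈ widen V q) : w 1 ≤ t 1 ∧ (w 1 = t 1 → w = t ∨ w = sh q t) := by
  rcases mem_widen.1 hw with h1 | ⟨v, hv, -, rfl⟩
  · by_cases hwt : w = t
    · rw [hwt]; exact ⟨le_rfl, fun _ => Or.inl rfl⟩
    · have := ht.2 w h1.1 hwt
      exact ⟨this.le, fun h => by omega⟩
  · simp only [sh_one]
    by_cases hwt : v = t
    · rw [hwt]; exact ⟨le_rfl, fun _ => Or.inr rfl⟩
    · have := ht.2 v hv hwt
      exact ⟨this.le, fun h => by omega⟩

lemma widen_hasL_iff {V : Finset (Pt 2)} (hV : ConvexPosition V) {q : ℤ} (hq : 0 < q) {w : Pt 2} :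
    (w ∈ widen V q ∧ HasL (widen V q) w) ↔ (w ∈ V ∧ HasL V w) := by
  constructor
  · rintro ⟨hw, a, b, ha, hab⟩
    rcases mem_widen.1 hw with h1 | ⟨v, hv, hR, rfl⟩
    · exact h1
    · exfalso
      have hqR : (0:ℝ) < q := by exact_mod_cast hq
      by_cases hL : HasL V v
      · have hvW : v ∈ widen V q := mem_widen.2 (Or.inl ⟨hv, hL⟩)
        have hne : v ≠ sh q v := by
          intro h
          have := congrFun h 0
          simp only [sh_zero] at this
          omega
        have := hab v hvW hne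
        simp only [sh_zero, sh_one] at this
        push_cast at this
        nlinarith
      · apply hL
        refine ⟨a, b, ha, fun u hu hne => ?_⟩
        rcases hasL_or_hasR hV hu with h | h
        · have huW : u ∈ widen V q := mem_widen.2 (Or.inl ⟨hu, h⟩)
          by_cases hne' : u = sh q v
          · rw [hne']
            simp only [sh_zero, sh_one]
            push_cast
            nlinarith
          · have := hab u huW hne'
            simp only [sh_zero, sh_one] at this
            push_cast at this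
            nlinarith
        · have huW : sh q u ∈ widen V q := mem_widen.2 (Or.inr ⟨u, hu, h, rfl⟩)
          have := hab (sh q u) huW (fun h => hne (sh_inj h))
          simp only [sh_zero, sh_one] at this
          push_cast at this
          linarith
  · rintro ⟨hw, h⟩
    exact ⟨mem_widen.2 (Or.inl ⟨hw, h⟩), widen_hasL hq hw h⟩

lemma widen_hasR_iff {V : Finset (Pt 2)} (hV : ConvexPosition V) {q : ℤ} (hq : 0 < q) {v : Pt 2} :
    (sh q v ∈ widen V q ∧ HasR (widen V q) (sh q v)) ↔ (v ∈ V ∧ HasR V v) := by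
  constructor
  · rintro ⟨hw, a, b, ha, hab⟩
    have hqR : (0:ℝ) < q := by exact_mod_cast hq
    rcases mem_widen.1 hw with h1 | ⟨v', hv', hR, h2⟩
    · exfalso
      set w := sh q v with hwdef
      by_cases hRw : HasR V w
      · have hvW : sh q w ∈ widen V q := mem_widen.2 (Or.inr ⟨w, h1.1, hRw, rfl⟩)
        have hne : sh q w ≠ w := by
          intro h
          have := congrFun h 0
          simp only [sh_zero] at this
          omega
        have := hab (sh q w) hvW hne
        simp only [sh_zero, sh_one] at this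
        push_cast at this
        nlinarith
      · apply hRw
        refine ⟨a, b, ha, fun u hu hne => ?_⟩
        rcases hasL_or_hasR hV hu with h | h
        · have huW : u ∈ widen V q := mem_widen.2 (Or.inl ⟨hu, h⟩)
          exact hab u huW hne
        · have huW : sh q u ∈ widen V q := mem_widen.2 (Or.inr ⟨u, hu, h, rfl⟩)
          by_cases hne' : sh q u = w
          · rw [← hne']
            simp only [sh_zero, sh_one]
            push_cast
            nlinarith
          · have := hab (sh q u) huW hne'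
            simp only [sh_zero, sh_one] at this
            push_cast at this
            nlinarith
    · have := sh_inj h2
      rw [this] at hv' hR
      exact ⟨hv', hR⟩
  · rintro ⟨hv, h⟩
    exact ⟨mem_widen.2 (Or.inr ⟨v, hv, h, rfl⟩), widen_hasR hq hv h⟩

/-- injectivity of widening -/
theorem widen_inj {V V' : Finset (Pt 2)} (hV : ConvexPosition V) (hV' : ConvexPosition V')
    {t t' : Pt 2} (ht : UTop V t) (ht' : UTop V' t') {q q' : ℤ} (hq : 0 < q) (hq' : 0 < q')
    (h : widen V q = widen V' q') : V = V' ∧ q = q' := by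
  have htW : t ∈ widen V q := mem_widen.2 (Or.inl ⟨ht.1, (top_hasLR ht.2).1⟩)
  have htW2 : sh q t ∈ widen V q := mem_widen.2 (Or.inr ⟨t, ht.1, (top_hasLR ht.2).2, rfl⟩)
  have htW' : t' ∈ widen V' q' := mem_widen.2 (Or.inl ⟨ht'.1, (top_hasLR ht'.2).1⟩)
  have htW2' : sh q' t' ∈ widen V' q' := mem_widen.2 (Or.inr ⟨t', ht'.1, (top_hasLR ht'.2).2, rfl⟩)
  have hlev : t 1 = t' 1 := by
    rw [h] at htW
    rw [← h] at htW'
    have h1 := (widen_top ht' htW).1
    have h2 := (widen_top ht htW').1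
    omega
  have a1 := (widen_top ht' (h ▸ htW)).2 hlev
  have a2 := (widen_top ht' (h ▸ htW2)).2 (by simp only [sh_one]; exact hlev)
  have b1 := (widen_top ht (h ▸ htW')).2 hlev.symm
  have hqq : q = q' := by
    have e0 : ∀ {x y : Pt 2}, x = y → x 0 = y 0 := fun h => by rw [h]
    rcases a1 with a1 | a1 <;> rcases a2 with a2 | a2 <;> rcases b1 with b1 | b1 <;>
      (have x1 := e0 a1; have x2 := e0 a2; have x3 := e0 b1; simp only [sh_zero] at x1 x2 x3; omega)
  subst hqq
  refine ⟨?_, rfl⟩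
  have hmain : ∀ v, v ∈ V ↔ v ∈ V' := by
    have key : ∀ {A B : Finset (Pt 2)}, ConvexPosition A → ConvexPosition B → widen A q = widen B q →
        ∀ v ∈ A, v ∈ B := by
      intro A B hA hB hAB v hv
      rcases hasL_or_hasR hA hv with h1 | h1
      · have := (widen_hasL_iff hA hq).2 ⟨hv, h1⟩
        rw [hAB] at this
        exact ((widen_hasL_iff hB hq).1 this).1
      · have := (widen_hasR_iff hA hq).2 ⟨hv, h1⟩
        rw [hAB] at this
        exact ((widen_hasR_iff hB hq).1 this).1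
    exact fun v => ⟨key hV hV' h v, key hV' hV h.symm v⟩
  exact Finset.ext hmain

end Pool.Agent.Q254.PolyMove
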