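import Mathlib
import Pool.Agent.Q254.PolyMove.Widen

/-!
Counting inequalities.
-/

open Finset

namespace Pool.Agent.Q254.PolyMove

/-- vertical shift by `r` -/
def up (r : ℤ) (v : Pt 2) : Pt 2 := ![v 0, v 1 + r]

@[simp] lemma up_zero (r : ℤ) (v : Pt 2) : up r v 0 = v 0 := rfl
@[simp] lemma up_one (r : ℤ) (v : Pt 2) : up r v 1 = v 1 + r := rfl

lemma up_injective (r : ℤ) : Function.Injective (up r) := by
  intro u v h
  have h0 := congrFun h 0
  have h1 := congrFun h 1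
  simp only [up_zero, up_one] at h0 h1
  exact pt_ext h0 (by omega)

lemma up_isPolytope {V : Finset (Pt 2)} (hV : IsPolytope V) (r : ℤ) :
    IsPolytope (V.image (up r)) := by
  constructor
  · intro w hw
    obtain ⟨v, hv, rfl⟩ := Finset.mem_image.1 hw
    obtain ⟨a, ha⟩ := hV.1 v hv
    refine ⟨a, fun u hu hne => ?_⟩
    obtain ⟨u', hu', rfl⟩ := Finset.mem_image.1 hu
    have := ha u' hu' (fun h => hne (by rw [h]))
    rw [ev_two, ev_two] at this ⊢
    simp only [up_zero, up_one]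
    push_cast
    linarith
  · intro a c hac
    apply hV.2 a (c - a 1 * r)
    intro v hv
    have := hac (up r v) (Finset.mem_image_of_mem _ hv)
    rw [ev_two] at this ⊢
    simp only [up_zero, up_one] at this
    push_cast at this
    linarith

lemma convexPosition_mono {d : ℕ} {V W : Finset (Pt d)} (h : V ⊆ W) (hW : ConvexPosition W) :
    ConvexPosition V := by
  intro v hv
  obtain ⟨a, ha⟩ := hW v (h hv)
  exact ⟨a, fun u hu hne => ha u (h hu) hne⟩

lemma fullDim_mono {d : ℕ} {V W : Finset (Pt d)} (h : V ⊆ W) (hV : FullDim V) : FullDim W :=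
  fun a c hac => hV a c (fun v hv => hac v (h hv))

lemma polys_mono {d k k' : ℕ} (h : k ≤ k') : polys d k ⊆ polys d k' := by
  intro V hV
  rw [mem_polys] at hV ⊢
  refine ⟨fun v hv i => ⟨(hV.1 v hv i).1, (hV.1 v hv i).2.trans (by exact_mod_cast h)⟩, hV.2⟩

open Classical in
/-- polygons in `[0,K]^2` that touch the top side -/
noncomputable def Tset (K : ℕ) : Finset (Finset (Pt 2)) :=
  (polys 2 K).filter (fun V => ∃ v ∈ V, v 1 = (K:ℤ))

open Classical in
/-- polygons in `[0,K]^2` with a unique top vertex -/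
noncomputable def Uall (K : ℕ) : Finset (Finset (Pt 2)) :=
  (polys 2 K).filter (fun V => ∃ t, UTop V t)

open Classical in
/-- polygons in `[0,K]^2` that touch the top side in a single vertex -/
noncomputable def Utop (K : ℕ) : Finset (Finset (Pt 2)) :=
  (Tset K).filter (fun V => ∃ t, UTop V t)

lemma mem_Tset {K : ℕ} {V : Finset (Pt 2)} : V ∈ Tset K ↔ V ∈ polys 2 K ∧ ∃ v ∈ V, v 1 = (K:ℤ) := by
  classical
  unfold Tset; rw [Finset.mem_filter]

lemma mem_Uall {K : ℕ} {V : Finset (Pt 2)} : V ∈ Uall K ↔ V ∈ polys 2 K ∧ ∃ t, UTop V t := by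
  classical
  unfold Uall; rw [Finset.mem_filter]

lemma mem_Utop {K : ℕ} {V : Finset (Pt 2)} : V ∈ Utop K ↔ V ∈ Tset K ∧ ∃ t, UTop V t := by
  classical
  unfold Utop; rw [Finset.mem_filter]

lemma up_mem_Tset {K r : ℕ} {V : Finset (Pt 2)} (hV : IsPolytope V)
    (hbox : ∀ v ∈ V, (0 ≤ v 0 ∧ v 0 ≤ (K + r : ℕ)) ∧ (0 ≤ v 1 ∧ v 1 ≤ (K:ℤ)))
    (htop : ∃ v ∈ V, v 1 = (K:ℤ)) : V.image (up r) ∈ Tset (K+r) := by
  rw [mem_Tset, mem_polys]
  refine ⟨⟨?_, up_isPolytope hV r⟩, ?_⟩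
  · intro w hw i
    obtain ⟨v, hv, rfl⟩ := Finset.mem_image.1 hw
    have hb := hbox v hv
    fin_cases i
    · exact hb.1
    · change 0 ≤ v 1 + (r:ℤ) ∧ v 1 + (r:ℤ) ≤ ((K+r:ℕ):ℤ)
      push_cast
      constructor <;> linarith [hb.2.1, hb.2.2]
  · obtain ⟨v, hv, h⟩ := htop
    refine ⟨up r v, Finset.mem_image_of_mem _ hv, ?_⟩
    rw [up_one, h]; push_cast; ring

lemma T_mono : Monotone (fun K => #(Tset K)) := by
  apply monotone_nat_of_le_succ
  intro K
  apply Finset.card_le_card_of_injOn (fun V => V.image (up (1:ℕ)))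
  · intro V hV
    rw [Finset.mem_coe, mem_Tset, mem_polys] at hV
    rw [Finset.mem_coe]
    refine up_mem_Tset hV.1.2 (fun v hv => ?_) hV.2
    have h0 := hV.1.1 v hv 0
    have h1 := hV.1.1 v hv 1
    push_cast
    exact ⟨⟨h0.1, by linarith [h0.2]⟩, h1⟩
  · intro V _ V' _ h
    exact Finset.image_injective (up_injective _) h

lemma N_mono : Monotone (fun K => #(polys 2 K)) := fun _ _ h => Finset.card_le_card (polys_mono h)

lemma T_le_N (K : ℕ) : #(Tset K) ≤ #(polys 2 K) := Finset.card_le_card (Finset.filter_subset _ _)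

lemma T_pos (K : ℕ) (hK : 1 ≤ K) : 1 ≤ #(Tset K) := by
  classical
  apply Finset.card_pos.2
  refine ⟨{![0,0], ![1,0], ![0,(K:ℤ)]}, ?_⟩
  rw [mem_Tset, mem_polys]
  have hKZ : (1:ℤ) ≤ K := by exact_mod_cast hK
  have hKR : (1:ℝ) ≤ K := by exact_mod_cast hK
  refine ⟨⟨?_, ?_, ?_⟩, ?_⟩
  · intro v hv i
    simp only [Finset.mem_insert, Finset.mem_singleton] at hv
    rcases hv with rfl | rfl | rfl <;> fin_cases i <;> simp <;> omega
  · intro v hv
    simp only [Finset.mem_insert, Finset.mem_singleton] at hv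
    rcases hv with rfl | rfl | rfl
    · refine ⟨![-1,-1], fun u hu hne => ?_⟩
      simp only [Finset.mem_insert, Finset.mem_singleton] at hu
      rcases hu with rfl | rfl | rfl
      · exact absurd rfl hne
      · rw [ev_two, ev_two]; simp
      · rw [ev_two, ev_two]; simp; linarith
    · refine ⟨![1,0], fun u hu hne => ?_⟩
      simp only [Finset.mem_insert, Finset.mem_singleton] at hu
      rcases hu with rfl | rfl | rfl
      · rw [ev_two, ev_two]; simp
      · exact absurd rfl hne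
      · rw [ev_two, ev_two]; simp
    · refine ⟨![0,1], fun u hu hne => ?_⟩
      simp only [Finset.mem_insert, Finset.mem_singleton] at hu
      rcases hu with rfl | rfl | rfl
      · rw [ev_two, ev_two]; simp; linarith
      · rw [ev_two, ev_two]; simp; linarith
      · exact absurd rfl hne
  · intro a c hac
    have h1 := hac ![0,0] (by simp)
    have h2 := hac ![1,0] (by simp)
    have h3 := hac ![0,(K:ℤ)] (by simp)
    rw [ev_two] at h1 h2 h3
    simp at h1 h2 h3
    have ha0 : a 0 = 0 := by rw [h2, ← h1]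
    have ha1 : a 1 = 0 := by
      rw [← h1] at h3
      rcases mul_eq_zero.1 h3 with h | h
      · exact h
      · linarith
    funext i
    fin_cases i
    · exact ha0
    · exact ha1
  · exact ⟨![0,(K:ℤ)], by simp, by simp⟩

lemma N_pos (K : ℕ) (hK : 1 ≤ K) : 1 ≤ #(polys 2 K) := (T_pos K hK).trans (T_le_N K)

lemma widen_box {K : ℕ} {V : Finset (Pt 2)} {q : ℕ}
    (hbox : ∀ v ∈ V, ∀ i, 0 ≤ v i ∧ v i ≤ (K:ℤ)) {w : Pt 2} (hw : w ∈ widen V q) :
    (0 ≤ w 0 ∧ w 0 ≤ ((K + q : ℕ):ℤ)) ∧ (0 ≤ w 1 ∧ w 1 ≤ (K:ℤ)) := by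
  rcases mem_widen.1 hw with h1 | ⟨v, hv, -, rfl⟩
  · have h0 := hbox w h1.1 0
    have h1' := hbox w h1.1 1
    push_cast
    exact ⟨⟨h0.1, by linarith [h0.2]⟩, h1'⟩
  · have h0 := hbox v hv 0
    have h1' := hbox v hv 1
    simp only [sh_zero, sh_one]
    push_cast
    exact ⟨⟨by linarith [h0.1], by linarith [h0.2]⟩, h1'⟩

/-- `m * #Utop K ≤ #Tset (K+m)` -/
lemma Utop_bound (K m : ℕ) : m * #(Utop K) ≤ #(Tset (K+m)) := by
  classical
  have h : #(Finset.Icc 1 m ×ˢ Utop K) ≤ #(Tset (K+m)) := by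
    apply Finset.card_le_card_of_injOn (fun p => (widen p.2 (p.1:ℕ)).image (up (m:ℕ)))
    · rintro ⟨q, V⟩ hp
      rw [Finset.mem_coe, Finset.mem_product, Finset.mem_Icc, mem_Utop, mem_Tset, mem_polys] at hp
      obtain ⟨⟨hq1, hqm⟩, ⟨⟨hbox, hV⟩, v, hv, hvK⟩, t, ht⟩ := hp
      rw [Finset.mem_coe]
      simp only at hq1 hqm hbox hV hv ht ⊢
      have hq0 : (0:ℤ) < (q:ℤ) := by exact_mod_cast hq1
      refine up_mem_Tset (widen_isPolytope hV ht hq0) (fun w hw => ?_) ?_
      · have := widen_box hbox hw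
        refine ⟨⟨this.1.1, this.1.2.trans ?_⟩, this.2⟩
        push_cast
        have : (q:ℤ) ≤ m := by exact_mod_cast hqm
        linarith
      · refine ⟨t, mem_widen.2 (Or.inl ⟨ht.1, (top_hasLR ht.2).1⟩), ?_⟩
        by_cases hvt : v = t
        · rw [← hvt]; exact hvK
        · have h1 := ht.2 v hv hvt
          have h2 := (hbox t ht.1 1).2
          omega
    · rintro ⟨q, V⟩ hp ⟨q', V'⟩ hp' h
      rw [Finset.mem_coe, Finset.mem_product, Finset.mem_Icc, mem_Utop, mem_Tset, mem_polys] at hp hp'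
      obtain ⟨⟨hq1, hqm⟩, ⟨⟨hbox, hV⟩, v, hv, hvK⟩, t, ht⟩ := hp
      obtain ⟨⟨hq1', hqm'⟩, ⟨⟨hbox', hV'⟩, v', hv', hvK'⟩, t', ht'⟩ := hp'
      have h1 := Finset.image_injective (up_injective _) h
      simp only at hq1 hq1' hV hV' ht ht' h1
      have := widen_inj hV.1 hV'.1 ht ht' (by exact_mod_cast hq1) (by exact_mod_cast hq1') h1
      rw [Prod.mk.injEq]
      exact ⟨by exact_mod_cast this.2, this.1⟩
  rw [Finset.card_product, Nat.card_Icc, Nat.add_sub_cancel] at h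
  exact h

/-- `m * #Uall K ≤ #polys (K+m)` -/
lemma Uall_bound (K m : ℕ) : m * #(Uall K) ≤ #(polys 2 (K+m)) := by
  classical
  have h : #(Finset.Icc 1 m ×ˢ Uall K) ≤ #(polys 2 (K+m)) := by
    apply Finset.card_le_card_of_injOn (fun p => widen p.2 (p.1:ℕ))
    · rintro ⟨q, V⟩ hp
      rw [Finset.mem_coe, Finset.mem_product, Finset.mem_Icc, mem_Uall, mem_polys] at hp
      obtain ⟨⟨hq1, hqm⟩, ⟨hbox, hV⟩, t, ht⟩ := hp
      rw [Finset.mem_coe, mem_polys]
      simp only at hq1 hqm hbox hV ht ⊢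
      have hq0 : (0:ℤ) < (q:ℤ) := by exact_mod_cast hq1
      refine ⟨fun w hw i => ?_, widen_isPolytope hV ht hq0⟩
      have hb := widen_box hbox hw
      have hqm' : (q:ℤ) ≤ m := by exact_mod_cast hqm
      have hb0 := hb.1.2
      push_cast at hb0
      fin_cases i
      · change 0 ≤ w 0 ∧ w 0 ≤ ((K+m:ℕ):ℤ)
        push_cast
        exact ⟨hb.1.1, by linarith⟩
      · change 0 ≤ w 1 ∧ w 1 ≤ ((K+m:ℕ):ℤ)
        push_cast
        have : (0:ℤ) ≤ m := Int.natCast_nonneg m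
        exact ⟨hb.2.1, by linarith [hb.2.2]⟩
    · rintro ⟨q, V⟩ hp ⟨q', V'⟩ hp' h
      rw [Finset.mem_coe, Finset.mem_product, Finset.mem_Icc, mem_Uall, mem_polys] at hp hp'
      obtain ⟨⟨hq1, hqm⟩, ⟨hbox, hV⟩, t, ht⟩ := hp
      obtain ⟨⟨hq1', hqm'⟩, ⟨hbox', hV'⟩, t', ht'⟩ := hp'
      simp only at hq1 hq1' hV hV' ht ht' h
      have := widen_inj hV.1 hV'.1 ht ht' (by exact_mod_cast hq1) (by exact_mod_cast hq1') h
      rw [Prod.mk.injEq]
      exact ⟨by exact_mod_cast this.2, this.1⟩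
  rw [Finset.card_product, Nat.card_Icc, Nat.add_sub_cancel] at h
  exact h

/-- the polygons not touching the top side -/
lemma T_add_N (K : ℕ) (hK : 1 ≤ K) : #(Tset K) + #(polys 2 (K-1)) ≤ #(polys 2 K) := by
  classical
  rw [← Finset.card_union_of_disjoint]
  · apply Finset.card_le_card
    apply Finset.union_subset (Finset.filter_subset _ _) (polys_mono (by omega))
  · rw [Finset.disjoint_left]
    intro V h1 h2
    obtain ⟨v, hv, hvK⟩ := (mem_Tset.1 h1).2
    have := ((mem_polys.1 h2).1 v hv 1).2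
    rw [hvK] at this
    have : K ≤ K - 1 := by exact_mod_cast this
    omega

end Pool.Agent.Q254.PolyMove
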