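import Mathlib
import Pool.Agent.Q254.PolyMove.Counts2

/-!
The graphs `Λ(2,k)` are not expanders.
-/

open Finset

namespace Pool.Agent.Q254.PolyMove

lemma Move.symm {d : ℕ} {A B : Finset (Pt d)} (h : Move A B) : Move B A := by
  rcases h with h | h
  · exact Or.inr h
  · exact Or.inl h

lemma bdry_compl {d k : ℕ} {S : Finset (Finset (Pt d))} (hS : S ⊆ polys d k) :
    bdry d k (polys d k \ S) ≤ bdry d k S := by
  classical
  unfold bdry
  apply Finset.card_le_card_of_injOn Prod.swap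
  · rintro ⟨A, B⟩ hp
    rw [Finset.mem_coe, Finset.mem_filter, Finset.mem_product, Finset.sdiff_sdiff_eq_self hS] at hp
    rw [Finset.mem_coe, Finset.mem_filter, Finset.mem_product]
    exact ⟨⟨hp.1.2, hp.1.1⟩, hp.2.symm⟩
  · exact Prod.swap_injective.injOn

/-- edges leaving `Tset K` -/
lemma bdry_Tset (K : ℕ) : bdry 2 K (Tset K) ≤ #(Utop K) := by
  classical
  unfold bdry
  have key : ∀ A B, A ∈ Tset K → B ∈ polys 2 K \ Tset K → Move A B →
      ∃ x, x ∉ B ∧ A = insert x B ∧ x 1 = (K:ℤ) ∧ ∀ u ∈ B, u 1 < (K:ℤ) := by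
    intro A B hA hB hM
    rw [Finset.mem_sdiff] at hB
    obtain ⟨hA1, v, hv, hvK⟩ := mem_Tset.1 hA
    have hBn : ∀ u ∈ B, u 1 < (K:ℤ) := by
      intro u hu
      have h1 := ((mem_polys.1 hB.1).1 u hu 1).2
      have h2 : u 1 ≠ (K:ℤ) := fun h => hB.2 (mem_Tset.2 ⟨hB.1, u, hu, h⟩)
      omega
    rcases hM with ⟨x, hx, hBx⟩ | ⟨x, hx, hAx⟩
    · exfalso
      have : v ∈ B := by rw [hBx]; exact Finset.mem_insert_of_mem hv
      have := hBn v this
      omega
    · refine ⟨x, hx, hAx, ?_, hBn⟩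
      rw [hAx, Finset.mem_insert] at hv
      rcases hv with rfl | hv
      · exact hvK
      · have := hBn v hv
        omega
  apply Finset.card_le_card_of_injOn Prod.fst
  · rintro ⟨A, B⟩ hp
    rw [Finset.mem_coe, Finset.mem_filter, Finset.mem_product] at hp
    obtain ⟨x, hx, hAx, hxK, hBn⟩ := key A B hp.1.1 hp.1.2 hp.2
    rw [Finset.mem_coe, mem_Utop]
    refine ⟨hp.1.1, x, ?_, ?_⟩
    · change x ∈ A
      rw [hAx]; exact Finset.mem_insert_self _ _
    · intro u hu hne
      change u ∈ A at hu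
      rw [hAx, Finset.mem_insert] at hu
      rcases hu with rfl | hu
      · exact absurd rfl hne
      · rw [hxK]; exact hBn u hu
  · rintro ⟨A, B⟩ hp ⟨A', B'⟩ hp' h
    rw [Finset.mem_coe, Finset.mem_filter, Finset.mem_product] at hp hp'
    simp only at h
    subst h
    obtain ⟨x, hx, hAx, hxK, hBn⟩ := key A B hp.1.1 hp.1.2 hp.2
    obtain ⟨x', hx', hAx', hxK', hBn'⟩ := key A B' hp'.1.1 hp'.1.2 hp'.2
    have hxx : x = x' := by
      have : x ∈ A := by rw [hAx]; exact Finset.mem_insert_self _ _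
      rw [hAx', Finset.mem_insert] at this
      rcases this with h | h
      · exact h
      · have := hBn' x h
        omega
    subst hxx
    have : B = B' := by
      rw [← Finset.erase_insert hx, ← hAx, hAx', Finset.erase_insert hx']
    rw [this]

/-- the four vertices of a trapezoid are exposed -/
lemma quad {K : ℕ} {p q r s : Pt 2} (hp : ∀ i, 0 ≤ p i ∧ p i ≤ (K:ℤ))
    (hr : ∀ i, 0 ≤ r i ∧ r i ≤ (K:ℤ)) (hs : ∀ i, 0 ≤ s i ∧ s i ≤ (K:ℤ))
    (hpq : p ≠ q) (hlev : p 1 = q 1) (hlev2 : r 1 = s 1) (hne : p 1 ≠ r 1) :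
    ∃ a : Fin 2 → ℝ, ev a q < ev a p ∧ ev a r < ev a p ∧ ev a s < ev a p := by
  have hpq0 : p 0 ≠ q 0 := fun h => hpq (pt_ext h hlev)
  obtain ⟨a0, ha0, ha0q⟩ : ∃ a0 : ℤ, (a0 = 1 ∨ a0 = -1) ∧ a0 * q 0 < a0 * p 0 := by
    rcases lt_or_gt_of_ne hpq0 with h | h
    · exact ⟨-1, Or.inr rfl, by omega⟩
    · exact ⟨1, Or.inl rfl, by omega⟩
  obtain ⟨a1, ha1⟩ : ∃ a1 : ℤ, (K:ℤ) + 1 ≤ a1 * (p 1 - r 1) := by
    rcases lt_or_gt_of_ne hne with h | h
    · exact ⟨-(K+1), by nlinarith⟩
    · exact ⟨(K+1), by nlinarith⟩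
  have ha1s : (K:ℤ) + 1 ≤ a1 * (p 1 - s 1) := by rw [← hlev2]; exact ha1
  have hev : ∀ v : Pt 2, ev (![(a0:ℝ), (a1:ℝ)]) v = ((a0 * v 0 + a1 * v 1 : ℤ) : ℝ) := by
    intro v
    rw [ev_two]
    push_cast
    simp
  have gen : ∀ w : Pt 2, (∀ i, 0 ≤ w i ∧ w i ≤ (K:ℤ)) → (K:ℤ) + 1 ≤ a1 * (p 1 - w 1) →
      a0 * w 0 + a1 * w 1 < a0 * p 0 + a1 * p 1 := by
    intro w hw hw1
    have h0 := hw 0
    have hp0 := hp 0
    rcases ha0 with rfl | rfl <;> nlinarith
  refine ⟨![(a0:ℝ), (a1:ℝ)], ?_, ?_, ?_⟩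
  · rw [hev, hev]
    have : a0 * q 0 + a1 * q 1 < a0 * p 0 + a1 * p 1 := by rw [hlev]; linarith
    exact_mod_cast this
  · rw [hev, hev]
    exact_mod_cast gen r hr ha1
  · rw [hev, hev]
    exact_mod_cast gen s hs ha1s

/-- polygons with no unique top vertex have a neighbour -/
lemma deg_pos {K : ℕ} (hK : 1 ≤ K) {A : Finset (Pt 2)} (hA : A ∈ polys 2 K)
    (hT : ¬ ∃ t, UTop A t) : 1 ≤ deg 2 K A := by
  classical
  have hA' := mem_polys.1 hA
  obtain ⟨hbox, hconv, hfull⟩ := hA'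
  have hne : A.Nonempty := by
    rw [Finset.nonempty_iff_ne_empty]
    rintro rfl
    have := hfull ![1,0] 0 (by simp)
    have h0 := congrFun this 0
    simp at h0
  obtain ⟨t1, ht1, hmax⟩ := Finset.exists_max_image A (fun v => v 1) hne
  have ht2 : ∃ t2 ∈ A, t2 ≠ t1 ∧ t2 1 = t1 1 := by
    by_contra hcon
    push Not at hcon
    apply hT
    refine ⟨t1, ht1, fun u hu hut => ?_⟩
    have h1 := hmax u hu
    have h2 := hcon u hu hut
    omega
  obtain ⟨t2, ht2, ht21, hlev⟩ := ht2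
  have hc : ∃ c ∈ A, c 1 ≠ t1 1 := by
    by_contra hcon
    push Not at hcon
    have := hfull ![0,1] (t1 1) (by
      intro v hv
      rw [ev_two]
      simp [hcon v hv])
    have h0 := congrFun this 1
    simp at h0
  obtain ⟨c, hc, hc1⟩ := hc
  unfold deg
  apply Finset.card_pos.2
  by_cases hex : ∃ c' ∈ A, c' ≠ t1 ∧ c' ≠ t2 ∧ c' ≠ c
  · obtain ⟨c', hc', h1, h2, h3⟩ := hex
    refine ⟨A.erase c', ?_⟩
    rw [Finset.mem_filter, mem_polys]
    refine ⟨⟨fun v hv => hbox v (Finset.mem_of_mem_erase hv),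
      convexPosition_mono (Finset.erase_subset _ _) hconv, ?_⟩,
      Or.inr ⟨c', Finset.notMem_erase _ _, (Finset.insert_erase hc').symm⟩⟩
    intro a e hae
    have e1 := hae t1 (Finset.mem_erase.2 ⟨h1.symm, ht1⟩)
    have e2 := hae t2 (Finset.mem_erase.2 ⟨h2.symm, ht2⟩)
    have e3 := hae c (Finset.mem_erase.2 ⟨h3.symm, hc⟩)
    rw [ev_two] at e1 e2 e3
    rw [hlev] at e2
    have hne0 : (t2 0 : ℝ) - t1 0 ≠ 0 := by
      rw [sub_ne_zero]
      intro h
      exact ht21 (pt_ext (by exact_mod_cast h) hlev)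
    have ha0 : a 0 = 0 := by
      have : a 0 * ((t2 0 : ℝ) - t1 0) = 0 := by linarith
      rcases mul_eq_zero.1 this with h | h
      · exact h
      · exact absurd h hne0
    have hne1 : (c 1 : ℝ) - t1 1 ≠ 0 := by
      rw [sub_ne_zero]
      intro h
      exact hc1 (by exact_mod_cast h)
    have ha1 : a 1 = 0 := by
      rw [ha0] at e1 e3
      have : a 1 * ((c 1 : ℝ) - t1 1) = 0 := by linarith
      rcases mul_eq_zero.1 this with h | h
      · exact h
      · exact absurd h hne1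
    funext i
    fin_cases i
    · exact ha0
    · exact ha1
  · push Not at hex
    -- `A = {t1, t2, c}`
    have hAeq : ∀ v ∈ A, v = t1 ∨ v = t2 ∨ v = c := by
      intro v hv
      by_cases h1 : v = t1
      · exact Or.inl h1
      · by_cases h2 : v = t2
        · exact Or.inr (Or.inl h2)
        · exact Or.inr (Or.inr (hex v hv h1 h2))
    obtain ⟨c', hc'c, hc'1, hc'box⟩ : ∃ c' : Pt 2, c' ≠ c ∧ c' 1 = c 1 ∧
        ∀ i, 0 ≤ c' i ∧ c' i ≤ (K:ℤ) := by
      have h0 := hbox c hc 0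
      have h1 := hbox c hc 1
      by_cases hlt : c 0 < (K:ℤ)
      · refine ⟨sh 1 c, ?_, rfl, ?_⟩
        · intro h
          have := congrFun h 0
          simp only [sh_zero] at this
          omega
        · intro i
          fin_cases i
          · change 0 ≤ c 0 + 1 ∧ c 0 + 1 ≤ (K:ℤ)
            omega
          · exact h1
      · refine ⟨sh (-1) c, ?_, rfl, ?_⟩
        · intro h
          have := congrFun h 0
          simp only [sh_zero] at this
          omega
        · intro i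
          fin_cases i
          · change 0 ≤ c 0 + -1 ∧ c 0 + -1 ≤ (K:ℤ)
            omega
          · exact h1
    have hc'A : c' ∉ A := by
      intro h
      rcases hAeq c' h with h | h | h
      · rw [h] at hc'1; exact hc1 hc'1.symm
      · rw [h, hlev] at hc'1; exact hc1 hc'1.symm
      · exact hc'c h
    refine ⟨insert c' A, ?_⟩
    rw [Finset.mem_filter, mem_polys]
    refine ⟨⟨?_, ?_, fullDim_mono (Finset.subset_insert _ _) hfull⟩, Or.inl ⟨c', hc'A, rfl⟩⟩
    · intro v hv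
      rcases Finset.mem_insert.1 hv with rfl | hv
      · exact hc'box
      · exact hbox v hv
    · have hmem : ∀ v ∈ insert c' A, v = c' ∨ v = t1 ∨ v = t2 ∨ v = c := by
        intro v hv
        rcases Finset.mem_insert.1 hv with h | h
        · exact Or.inl h
        · exact Or.inr (hAeq v h)
      intro v hv
      have b1 := hbox t1 ht1
      have b2 := hbox t2 ht2
      have bc := hbox c hc
      rcases hmem v hv with rfl | rfl | rfl | rfl
      · obtain ⟨a, h1, h2, h3⟩ := quad (K := K) (p := v) (q := c) (r := t1) (s := t2) hc'box b1 b2 hc'c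
          hc'1 hlev.symm (by rw [hc'1]; exact hc1)
        refine ⟨a, fun u hu hne => ?_⟩
        rcases hmem u hu with rfl | rfl | rfl | rfl
        · exact absurd rfl hne
        · exact h2
        · exact h3
        · exact h1
      · obtain ⟨a, h1, h2, h3⟩ := quad (K := K) (p := v) (q := t2) (r := c) (s := c') b1 bc hc'box ht21.symm
          hlev.symm hc'1.symm hc1.symm
        refine ⟨a, fun u hu hne => ?_⟩
        rcases hmem u hu with rfl | rfl | rfl | rfl
        · exact h3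
        · exact absurd rfl hne
        · exact h1
        · exact h2
      · obtain ⟨a, h1, h2, h3⟩ := quad (K := K) (p := v) (q := t1) (r := c) (s := c') b2 bc hc'box ht21
          hlev hc'1.symm (by rw [hlev]; exact hc1.symm)
        refine ⟨a, fun u hu hne => ?_⟩
        rcases hmem u hu with rfl | rfl | rfl | rfl
        · exact h3
        · exact h1
        · exact absurd rfl hne
        · exact h2
      · obtain ⟨a, h1, h2, h3⟩ := quad (K := K) (p := v) (q := c') (r := t1) (s := t2) bc b1 b2 hc'c.symm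
          hc'1.symm hlev.symm hc1
        refine ⟨a, fun u hu hne => ?_⟩
        rcases hmem u hu with rfl | rfl | rfl | rfl
        · exact h1
        · exact h2
        · exact h3
        · exact absurd rfl hne

/-- volume lower bound -/
lemma card_le_vol {K : ℕ} (hK : 1 ≤ K) {S U : Finset (Finset (Pt 2))} (hS : S ⊆ polys 2 K)
    (hU : ∀ A ∈ S, (∃ t, UTop A t) → A ∈ U) : #S ≤ vol 2 K S + #U := by
  classical
  have h1 : #(S \ U) ≤ vol 2 K S := by
    unfold vol
    calc #(S \ U) = ∑ _A ∈ S \ U, 1 := by simp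
      _ ≤ ∑ A ∈ S \ U, deg 2 K A := by
        apply Finset.sum_le_sum
        intro A hA
        rw [Finset.mem_sdiff] at hA
        exact deg_pos hK (hS hA.1) (fun h => hA.2 (hU A hA.1 h))
      _ ≤ ∑ A ∈ S, deg 2 K A :=
        Finset.sum_le_sum_of_subset Finset.sdiff_subset
  have h2 : #S ≤ #(S \ U) + #U := Finset.card_le_card_sdiff_add_card
  omega

lemma vol_add {d k : ℕ} {S : Finset (Finset (Pt d))} (hS : S ⊆ polys d k) :
    vol d k S + vol d k (polys d k \ S) = vol d k (polys d k) := by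
  classical
  unfold vol
  rw [add_comm]
  exact Finset.sum_sdiff hS

lemma hExp_le {d k : ℕ} {S : Finset (Finset (Pt d))} (h1 : S ⊆ polys d k) (h2 : S.Nonempty)
    (h3 : 2 * #S ≤ #(polys d k)) : hExp d k ≤ (bdry d k S : ℝ) / (#S : ℝ) := by
  apply csInf_le
  · exact ⟨0, by rintro r ⟨S, -, -, -, rfl⟩; positivity⟩
  · exact ⟨S, h1, h2, h3, rfl⟩

lemma phiExp_le {d k : ℕ} {S : Finset (Finset (Pt d))} (h1 : S ⊆ polys d k) (h2 : 0 < vol d k S)
    (h3 : 2 * vol d k S ≤ vol d k (polys d k)) :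
    phiExp d k ≤ (bdry d k S : ℝ) / (vol d k S : ℝ) := by
  apply csInf_le
  · exact ⟨0, by rintro r ⟨S, -, -, -, rfl⟩; positivity⟩
  · exact ⟨S, h1, h2, h3, rfl⟩

lemma div_bound {b s m : ℕ} (hm : 0 < m) (hs : 0 < s) (h : m * b ≤ 4 * s) :
    (b:ℝ) / (s:ℝ) ≤ 4 / (m:ℝ) := by
  have hm' : (0:ℝ) < m := by exact_mod_cast hm
  have hs' : (0:ℝ) < s := by exact_mod_cast hs
  rw [div_le_div_iff₀ hs' hm']
  have : (m:ℝ) * b ≤ 4 * s := by exact_mod_cast h
  linarith

/-- main bound -/
theorem main_bound (m : ℕ) (hm : 8 ≤ m) :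
    ∃ K, 1 ≤ K ∧ hExp 2 K ≤ 4 / (m:ℝ) ∧ phiExp 2 K ≤ 4 / (m:ℝ) := by
  classical
  obtain ⟨K, hK, hN1, hT2, hN2⟩ := pigeon (fun K => #(polys 2 K)) (fun K => #(Tset K)) N_mono T_mono
    T_le_N T_pos polys_card_le m (by omega)
  have hTN := T_add_N K hK
  have hTpos := T_pos K hK
  have hU := Utop_bound K m
  have hUA := Uall_bound K m
  have hbd := bdry_Tset K
  have hsub : Tset K ⊆ polys 2 K := Finset.filter_subset _ _
  have hm0 : 0 < m := by omega
  set T := #(Tset K) with hTdef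
  set N := #(polys 2 K) with hNdef
  set U := #(Utop K) with hUdef
  set UA := #(Uall K) with hUAdef
  have h2T : 2 * T ≤ N := by omega
  have hmU : m * U ≤ 2 * T := hU.trans hT2
  have hmUA : m * UA ≤ 2 * N := hUA.trans hN2
  have h8U : 8 * U ≤ m * U := Nat.mul_le_mul_right _ hm
  have h8UA : 8 * UA ≤ m * UA := Nat.mul_le_mul_right _ hm
  have hmb : m * bdry 2 K (Tset K) ≤ m * U := Nat.mul_le_mul_left _ hbd
  refine ⟨K, hK, ?_, ?_⟩
  · have h1 := hExp_le hsub (Finset.card_pos.1 (by omega)) h2T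
    refine h1.trans (div_bound hm0 (by omega) (by omega))
  · have hv1 : T ≤ vol 2 K (Tset K) + U := by
      apply card_le_vol hK hsub
      intro A hA h
      exact mem_Utop.2 ⟨hA, h⟩
    by_cases hcase : 2 * vol 2 K (Tset K) ≤ vol 2 K (polys 2 K)
    · have h1 := phiExp_le hsub (by omega) hcase
      refine h1.trans (div_bound hm0 (by omega) (by omega))
    · have hsub' : polys 2 K \ Tset K ⊆ polys 2 K := Finset.sdiff_subset
      have hadd := vol_add hsub
      have hv2 : #(polys 2 K \ Tset K) ≤ vol 2 K (polys 2 K \ Tset K) + UA := by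
        apply card_le_vol hK hsub'
        intro A hA h
        exact mem_Uall.2 ⟨hsub' hA, h⟩
      have hcard : #(polys 2 K \ Tset K) + T = N := Finset.card_sdiff_add_card_eq_card hsub
      have hmb2 : m * bdry 2 K (polys 2 K \ Tset K) ≤ m * bdry 2 K (Tset K) :=
        Nat.mul_le_mul_left _ (bdry_compl hsub)
      have h1 := phiExp_le hsub' (by omega) (by omega)
      refine h1.trans (div_bound hm0 (by omega) (by omega))

/-- Neither the edge expansions nor the conductances of the graphs `Λ(2,k)` are bounded away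
from `0`. -/
theorem not_expanders (c : ℝ) (hc : 0 < c) : ∃ k : ℕ, 1 ≤ k ∧ hExp 2 k < c ∧ phiExp 2 k < c := by
  obtain ⟨n, hn⟩ := exists_nat_gt (4 / c)
  have hm : (4:ℝ) / ((n + 8 : ℕ):ℝ) < c := by
    rw [div_lt_iff₀ (by positivity)]
    rw [div_lt_iff₀ hc] at hn
    push_cast
    nlinarith
  obtain ⟨K, hK, h1, h2⟩ := main_bound (n+8) (by omega)
  exact ⟨K, hK, lt_of_le_of_lt h1 hm, lt_of_le_of_lt h2 hm⟩

end Pool.Agent.Q254.PolyMove
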