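import Mathlib
import Pool.Agent.Q254.PolyMove.Main

/-!
The conductance of `Λ(d,k)`: the cut given by containing the vertex `x`.
-/

open Finset Filter Topology

namespace Pool.Agent.Q254.PolyMove

/-- a full-dimensional set contains a full-dimensional subset of size at most `d+1` -/
lemma exists_small_fullDim {d : ℕ} {V : Finset (Pt d)} (hV : FullDim V) :
    ∃ F ⊆ V, #F ≤ d + 1 ∧ FullDim F := by
  classical
  let w : Pt d → (Fin d → ℝ) × ℝ := fun v => (fun i => (v i : ℝ), 1)
  have hw : Function.Injective w := by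
    intro u v h
    funext i
    have := congrFun (congrArg Prod.fst h) i
    simp only [w] at this
    exact_mod_cast this
  obtain ⟨b, hb, hspan, hli⟩ := exists_linearIndependent ℝ (w '' (V : Set (Pt d)))
  refine ⟨V.filter (fun v => w v ∈ b), Finset.filter_subset _ _, ?_, ?_⟩
  · let g : {v // v ∈ V.filter (fun v => w v ∈ b)} → b :=
      fun v => ⟨w v.1, (Finset.mem_filter.1 v.2).2⟩
    have hg : Function.Injective g := by
      intro u v h
      apply Subtype.ext
      apply hw
      exact congrArg Subtype.val h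
    have h1 := (hli.comp g hg).fintype_card_le_finrank
    rw [Fintype.card_coe, Module.finrank_prod, Module.finrank_fin_fun, Module.finrank_self] at h1
    exact h1
  · intro a c hac
    let φ : ((Fin d → ℝ) × ℝ) →ₗ[ℝ] ℝ :=
      (∑ i, a i • ((LinearMap.proj i : (Fin d → ℝ) →ₗ[ℝ] ℝ) ∘ₗ LinearMap.fst ℝ (Fin d → ℝ) ℝ)) -
        c • LinearMap.snd ℝ (Fin d → ℝ) ℝ
    have hφ : ∀ v : Pt d, φ (w v) = ev a v - c := by
      intro v
      simp [φ, w, ev, LinearMap.sum_apply]
    have hker : Submodule.span ℝ b ≤ LinearMap.ker φ := by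
      rw [Submodule.span_le]
      intro y hy
      obtain ⟨v, hv, rfl⟩ := hb hy
      rw [SetLike.mem_coe, LinearMap.mem_ker, hφ, hac v (Finset.mem_filter.2 ⟨hv, hy⟩), sub_self]
    apply hV a c
    intro v hv
    have h1 : w v ∈ Submodule.span ℝ b := by
      rw [hspan]
      exact Submodule.subset_span ⟨v, hv, rfl⟩
    have h2 := hker h1
    rw [LinearMap.mem_ker, hφ] at h2
    linarith

/-- degree bound: all but at most `d+1` vertices can be deleted -/
lemma card_le_deg {d k : ℕ} {A : Finset (Pt d)} (hA : A ∈ polys d k) :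
    #A ≤ deg d k A + (d+1) := by
  classical
  obtain ⟨hbox, hconv, hfull⟩ := mem_polys.1 hA
  obtain ⟨F, hFA, hFc, hF⟩ := exists_small_fullDim hfull
  have h1 : #(A \ F) ≤ deg d k A := by
    unfold deg
    apply Finset.card_le_card_of_injOn (fun v => A.erase v)
    · intro v hv
      rw [Finset.mem_coe, Finset.mem_sdiff] at hv
      rw [Finset.mem_coe, Finset.mem_filter, mem_polys]
      refine ⟨⟨fun u hu => hbox u (Finset.mem_of_mem_erase hu),
        convexPosition_mono (Finset.erase_subset _ _) hconv, fullDim_mono ?_ hF⟩,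
        Or.inr ⟨v, Finset.notMem_erase _ _, (Finset.insert_erase hv.1).symm⟩⟩
      intro u hu
      exact Finset.mem_erase.2 ⟨fun h => hv.2 (h ▸ hu), hFA hu⟩
    · intro v hv v' hv' h
      rw [Finset.mem_coe, Finset.mem_sdiff] at hv hv'
      simp only at h
      by_contra hne
      have : v ∈ A.erase v' := Finset.mem_erase.2 ⟨hne, hv.1⟩
      rw [← h] at this
      exact Finset.notMem_erase _ _ this
  have h2 : #A ≤ #(A \ F) + #F := Finset.card_le_card_sdiff_add_card
  omega

open Classical in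
lemma small_count (d k L : ℕ) :
    #((polys d k).filter (fun A => #A ≤ L)) ≤ ((k+1)^d+1)^L := by
  have hsub : (polys d k).filter (fun A => #A ≤ L) ⊆
      (Finset.Icc (0 : Pt d) (fun _ => (k:ℤ))).powerset.filter (fun V => #V ≤ L) := by
    intro V hV
    rw [Finset.mem_filter, mem_polys] at hV
    rw [Finset.mem_filter, Finset.mem_powerset]
    refine ⟨fun v hv => ?_, hV.2⟩
    rw [Finset.mem_Icc]
    exact ⟨fun i => (hV.1.1 v hv i).1, fun i => (hV.1.1 v hv i).2⟩
  have hc : #(Finset.Icc (0 : Pt d) (fun _ => (k:ℤ))) = (k+1)^d := by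
    rw [Pi.card_Icc]
    simp
  have := (Finset.card_le_card hsub).trans (subsets_le _ L)
  rw [hc] at this
  exact this

lemma vol_ge {d k L : ℕ} {S : Finset (Finset (Pt d))} (hS : S ⊆ polys d k)
    (hc : 2 * ((k+1)^d+1)^L ≤ #S) : #S * (L - d) ≤ 2 * vol d k S := by
  classical
  have h1 : #(S.filter (fun A => ¬ #A ≤ L)) * (L - d) ≤ vol d k S := by
    unfold vol
    calc #(S.filter (fun A => ¬ #A ≤ L)) * (L - d) = ∑ _A ∈ S.filter (fun A => ¬ #A ≤ L), (L - d) := by
          simp
      _ ≤ ∑ A ∈ S.filter (fun A => ¬ #A ≤ L), deg d k A := by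
        apply Finset.sum_le_sum
        intro A hA
        rw [Finset.mem_filter] at hA
        have := card_le_deg (hS hA.1)
        omega
      _ ≤ ∑ A ∈ S, deg d k A := Finset.sum_le_sum_of_subset (Finset.filter_subset _ _)
  have h2 : #(S.filter (fun A => #A ≤ L)) ≤ ((k+1)^d+1)^L := by
    refine (Finset.card_le_card ?_).trans (small_count d k L)
    exact Finset.filter_subset_filter _ hS
  have h3 : #(S.filter (fun A => #A ≤ L)) + #(S.filter (fun A => ¬ #A ≤ L)) = #S :=
    Finset.card_filter_add_card_filter_not _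
  have h4 : #S ≤ 2 * #(S.filter (fun A => ¬ #A ≤ L)) := by omega
  calc #S * (L - d) ≤ (2 * #(S.filter (fun A => ¬ #A ≤ L))) * (L - d) := Nat.mul_le_mul_right _ h4
    _ = 2 * (#(S.filter (fun A => ¬ #A ≤ L)) * (L - d)) := by ring
    _ ≤ 2 * vol d k S := Nat.mul_le_mul_left _ h1

open Classical in
/-- the polytopes having the vertex `x` -/
noncomputable def Sx (d k : ℕ) (x : Pt d) : Finset (Finset (Pt d)) :=
  (polys d k).filter (fun A => x ∈ A)

lemma mem_Sx {d k : ℕ} {x : Pt d} {A : Finset (Pt d)} : A ∈ Sx d k x ↔ A ∈ polys d k ∧ x ∈ A := by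
  classical
  unfold Sx; rw [Finset.mem_filter]

lemma Sx_subset {d k : ℕ} {x : Pt d} : Sx d k x ⊆ polys d k := fun _ h => (mem_Sx.1 h).1

lemma move_Sx {d k : ℕ} {x : Pt d} {A B : Finset (Pt d)} (hA : A ∈ Sx d k x)
    (hB : B ∈ polys d k \ Sx d k x) (h : Move A B) : x ∉ B ∧ A = insert x B := by
  classical
  have hxA := (mem_Sx.1 hA).2
  rw [Finset.mem_sdiff] at hB
  have hxB : x ∉ B := fun h => hB.2 (mem_Sx.2 ⟨hB.1, h⟩)
  refine ⟨hxB, ?_⟩
  rcases h with ⟨y, hy, rfl⟩ | ⟨y, hy, rfl⟩
  · exact absurd (Finset.mem_insert_of_mem hxA) hxB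
  · rcases Finset.mem_insert.1 hxA with rfl | h
    · rfl
    · exact absurd h hxB

lemma bdry_Sx_le {d k : ℕ} (x : Pt d) : bdry d k (Sx d k x) ≤ #(Sx d k x) ∧
    bdry d k (Sx d k x) ≤ #(polys d k \ Sx d k x) := by
  classical
  unfold bdry
  constructor
  · apply Finset.card_le_card_of_injOn Prod.fst
    · rintro ⟨A, B⟩ hp
      rw [Finset.mem_coe, Finset.mem_filter, Finset.mem_product] at hp
      exact hp.1.1
    · rintro ⟨A, B⟩ hp ⟨A', B'⟩ hp' h
      rw [Finset.mem_coe, Finset.mem_filter, Finset.mem_product] at hp hp'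
      simp only at h
      subst h
      obtain ⟨h1, h2⟩ := move_Sx hp.1.1 hp.1.2 hp.2
      obtain ⟨h3, h4⟩ := move_Sx hp'.1.1 hp'.1.2 hp'.2
      simp only at h1 h2 h3 h4
      have : B = B' := by
        rw [← Finset.erase_insert h1, ← h2, h4, Finset.erase_insert h3]
      rw [this]
  · apply Finset.card_le_card_of_injOn Prod.snd
    · rintro ⟨A, B⟩ hp
      rw [Finset.mem_coe, Finset.mem_filter, Finset.mem_product] at hp
      exact hp.1.2
    · rintro ⟨A, B⟩ hp ⟨A', B'⟩ hp' h
      rw [Finset.mem_coe, Finset.mem_filter, Finset.mem_product] at hp hp'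
      simp only at h
      subst h
      obtain ⟨h1, h2⟩ := move_Sx hp.1.1 hp.1.2 hp.2
      obtain ⟨h3, h4⟩ := move_Sx hp'.1.1 hp'.1.2 hp'.2
      simp only at h2 h4
      rw [h2, h4]

/-- the conductance bound -/
theorem phi_bound {d k L : ℕ} (P F : Finset (Pt d)) (x : Pt d) (hxP : x ∉ P) (hxF : x ∉ F)
    (hPF : Disjoint P F) (hF : FullDim F) (hG : ∀ V ⊆ insert x (P ∪ F), ConvexPosition V)
    (hbox : ∀ v ∈ insert x (P ∪ F), ∀ i, 0 ≤ v i ∧ v i ≤ (k:ℤ)) (hL : d < L)
    (hcount : 2 * ((k+1)^d+1)^L ≤ 2^#P) : phiExp d k ≤ 2 / ((L - d : ℕ) : ℝ) := by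
  classical
  have hmem : ∀ B ⊆ P, F ∪ B ∈ polys d k ∧ insert x (F ∪ B) ∈ polys d k := by
    intro B hB
    have hsub : F ∪ B ⊆ insert x (P ∪ F) := by
      intro v hv
      rcases Finset.mem_union.1 hv with h | h
      · exact Finset.mem_insert_of_mem (Finset.mem_union_right _ h)
      · exact Finset.mem_insert_of_mem (Finset.mem_union_left _ (hB h))
    have hsub2 : insert x (F ∪ B) ⊆ insert x (P ∪ F) :=
      Finset.insert_subset (Finset.mem_insert_self _ _) hsub
    constructor
    · rw [mem_polys]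
      exact ⟨fun v hv => hbox v (hsub hv), hG _ hsub, fullDim_mono Finset.subset_union_left hF⟩
    · rw [mem_polys]
      exact ⟨fun v hv => hbox v (hsub2 hv), hG _ hsub2,
        fullDim_mono (Finset.subset_union_left.trans (Finset.subset_insert _ _)) hF⟩
  have hinj : ∀ B ⊆ P, ∀ B' ⊆ P, F ∪ B = F ∪ B' → B = B' := by
    have key : ∀ B ⊆ P, ∀ B' ⊆ P, F ∪ B = F ∪ B' → B ⊆ B' := by
      intro B hB B' hB' h v hv
      have h1 : v ∈ F ∪ B' := h ▸ Finset.mem_union_right _ hv
      rcases Finset.mem_union.1 h1 with h2 | h2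
      · exact absurd h2 (Finset.disjoint_left.1 hPF (hB hv))
      · exact h2
    intro B hB B' hB' h
    exact Finset.Subset.antisymm (key B hB B' hB' h) (key B' hB' B hB h.symm)
  have hxn : ∀ B ⊆ P, x ∉ F ∪ B := by
    intro B hB h
    rcases Finset.mem_union.1 h with h | h
    · exact hxF h
    · exact hxP (hB h)
  have hc1 : 2^#P ≤ #(Sx d k x) := by
    rw [← Finset.card_powerset]
    apply Finset.card_le_card_of_injOn (fun B => insert x (F ∪ B))
    · intro B hB
      rw [Finset.mem_coe, Finset.mem_powerset] at hB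
      exact mem_Sx.2 ⟨(hmem B hB).2, Finset.mem_insert_self _ _⟩
    · intro B hB B' hB' h
      rw [Finset.mem_coe, Finset.mem_powerset] at hB hB'
      simp only at h
      apply hinj B hB B' hB'
      rw [← Finset.erase_insert (hxn B hB), h, Finset.erase_insert (hxn B' hB')]
  have hc2 : 2^#P ≤ #(polys d k \ Sx d k x) := by
    rw [← Finset.card_powerset]
    apply Finset.card_le_card_of_injOn (fun B => F ∪ B)
    · intro B hB
      rw [Finset.mem_coe, Finset.mem_powerset] at hB
      rw [Finset.mem_coe, Finset.mem_sdiff]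
      exact ⟨(hmem B hB).1, fun h => hxn B hB (mem_Sx.1 h).2⟩
    · intro B hB B' hB' h
      rw [Finset.mem_coe, Finset.mem_powerset] at hB hB'
      exact hinj B hB B' hB' h
  have hpos : 0 < ((k+1)^d+1)^L := by positivity
  have hLd : 0 < L - d := by omega
  have fin : ∀ S : Finset (Finset (Pt d)), S ⊆ polys d k → 2 * ((k+1)^d+1)^L ≤ #S →
      bdry d k S ≤ #S → 2 * vol d k S ≤ vol d k (polys d k) → phiExp d k ≤ 2 / ((L - d : ℕ) : ℝ) := by
    intro S hS hcS hb hv
    have hvol := vol_ge hS hcS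
    have hvpos : 0 < vol d k S := by
      have : 0 < #S * (L - d) := Nat.mul_pos (by omega) hLd
      omega
    refine (phiExp_le hS hvpos hv).trans ?_
    have h1 : (0:ℝ) < (vol d k S : ℝ) := by exact_mod_cast hvpos
    have h2 : (0:ℝ) < ((L - d : ℕ) : ℝ) := by exact_mod_cast hLd
    rw [div_le_div_iff₀ h1 h2]
    have h3 : bdry d k S * (L - d) ≤ 2 * vol d k S := (Nat.mul_le_mul_right _ hb).trans hvol
    exact_mod_cast h3
  have hb := bdry_Sx_le (k := k) x
  by_cases hcase : 2 * vol d k (Sx d k x) ≤ vol d k (polys d k)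
  · exact fin _ Sx_subset (hcount.trans hc1) hb.1 hcase
  · have hadd := vol_add (Sx_subset (d := d) (k := k) (x := x))
    exact fin _ Finset.sdiff_subset (hcount.trans hc2) ((bdry_compl Sx_subset).trans hb.2) (by omega)

lemma phiExp_nonneg (d k : ℕ) : 0 ≤ phiExp d k := by
  apply Real.sInf_nonneg
  rintro r ⟨S, -, -, -, rfl⟩
  positivity

end Pool.Agent.Q254.PolyMove
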