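import Mathlib
import Pool.Agent.Q254.PolyMove.Cond

/-!
`Φ(Λ(d,k)) → 0`, both for `d` fixed and `k → ∞`, and for `k` fixed and `d → ∞`.
-/

open Finset Filter Topology

namespace Pool.Agent.Q254.PolyMove

/-! ### `d → ∞` : 0/1 polytopes -/

lemma ev_single {d : ℕ} (a : Fin d → ℝ) (i : Fin d) : ev a (Pi.single i 1) = a i := by
  unfold ev
  rw [Finset.sum_eq_single i]
  · simp
  · intro j _ hj
    rw [Pi.single_eq_of_ne hj]; simp
  · intro h; exact absurd (Finset.mem_univ i) h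

lemma ev_one {d : ℕ} (a : Fin d → ℝ) : ev a (1 : Pt d) = ∑ i, a i := by
  unfold ev; simp

/-- 0/1 points are in convex position -/
lemma convexPosition_zero_one {d : ℕ} {V : Finset (Pt d)} (hV : V ⊆ Finset.Icc 0 1) :
    ConvexPosition V := by
  have h01 : ∀ v ∈ V, ∀ i, v i = 0 ∨ v i = 1 := by
    intro v hv i
    have := Finset.mem_Icc.1 (hV hv)
    have h1 := this.1 i
    have h2 := this.2 i
    simp only [Pi.zero_apply, Pi.one_apply] at h1 h2
    omega
  intro v hv
  refine ⟨fun i => 2 * v i - 1, fun u hu hne => ?_⟩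
  unfold ev
  apply Finset.sum_lt_sum
  · intro i _
    rcases h01 v hv i with h1 | h1 <;> rcases h01 u hu i with h2 | h2 <;> norm_num [h1, h2]
  · have : ∃ i, u i ≠ v i := by
      by_contra hcon
      push Not at hcon
      exact hne (funext hcon)
    obtain ⟨i, hi⟩ := this
    refine ⟨i, Finset.mem_univ _, ?_⟩
    rcases h01 v hv i with h1 | h1 <;> rcases h01 u hu i with h2 | h2
    · exact absurd (h2.trans h1.symm) hi
    · norm_num [h1, h2]
    · norm_num [h1, h2]
    · exact absurd (h2.trans h1.symm) hi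

lemma phi_dim {d k L : ℕ} (hd : 2 ≤ d) (hk : 1 ≤ k) (hL : d < L)
    (hcount : 2 * ((k+1)^d+1)^L ≤ 2^(2^d - d - 2)) : phiExp d k ≤ 2 / ((L - d : ℕ) : ℝ) := by
  classical
  set F : Finset (Pt d) := insert (1 : Pt d) (Finset.univ.image (fun i : Fin d => (Pi.single i 1 : Pt d)))
    with hFdef
  have hFc : #F ≤ d + 1 := by
    refine (Finset.card_insert_le _ _).trans ?_
    have := Finset.card_image_le (s := (Finset.univ : Finset (Fin d)))
      (f := fun i : Fin d => (Pi.single i 1 : Pt d))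
    rw [Finset.card_univ, Fintype.card_fin] at this
    omega
  have hF : FullDim F := by
    intro a c hac
    have h1 : ∀ i, a i = c := by
      intro i
      rw [← ev_single a i]
      exact hac _ (Finset.mem_insert_of_mem (Finset.mem_image_of_mem _ (Finset.mem_univ i)))
    have h2 := hac 1 (Finset.mem_insert_self _ _)
    rw [ev_one] at h2
    simp only [h1, Finset.sum_const, Finset.card_univ, Fintype.card_fin, nsmul_eq_mul] at h2
    have hd' : (2:ℝ) ≤ d := by exact_mod_cast hd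
    have hc : c = 0 := by
      have : ((d:ℝ) - 1) * c = 0 := by linarith
      rcases mul_eq_zero.1 this with h | h
      · linarith
      · exact h
    funext i
    rw [h1 i, hc]; rfl
  have hFsub : F ⊆ Finset.Icc 0 1 := by
    intro v hv
    rw [Finset.mem_Icc]
    rcases Finset.mem_insert.1 hv with rfl | hv
    · exact ⟨fun i => by simp, fun i => by simp⟩
    · obtain ⟨j, -, rfl⟩ := Finset.mem_image.1 hv
      constructor
      · intro i
        by_cases h : i = j
        · subst h; simp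
        · simp [Pi.single_eq_of_ne h]
      · intro i
        by_cases h : i = j
        · subst h; simp
        · simp [Pi.single_eq_of_ne h]
  have h0F : (0 : Pt d) ∉ F := by
    intro h
    rcases Finset.mem_insert.1 h with h | h
    · have := congrFun h ⟨0, by omega⟩
      simp at this
    · obtain ⟨j, -, h⟩ := Finset.mem_image.1 h
      have := congrFun h j
      simp at this
  set P : Finset (Pt d) := ((Finset.Icc (0 : Pt d) 1) \ F).erase 0 with hPdef
  have hPsub : insert (0 : Pt d) (P ∪ F) ⊆ Finset.Icc 0 1 := by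
    intro v hv
    rcases Finset.mem_insert.1 hv with rfl | hv
    · rw [Finset.mem_Icc]
      exact ⟨le_rfl, fun i => by simp⟩
    · rcases Finset.mem_union.1 hv with hv | hv
      · exact (Finset.mem_sdiff.1 (Finset.mem_of_mem_erase hv)).1
      · exact hFsub hv
  have hPc : 2^d - d - 2 ≤ #P := by
    have h1 : #(Finset.Icc (0 : Pt d) 1) = 2^d := by
      rw [Pi.card_Icc]
      simp
    have h2 : #(Finset.Icc (0 : Pt d) 1) ≤ #(Finset.Icc (0 : Pt d) 1 \ F) + #F :=
      Finset.card_le_card_sdiff_add_card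
    have h3 := Finset.pred_card_le_card_erase (s := (Finset.Icc (0 : Pt d) 1) \ F) (a := 0)
    rw [← hPdef] at h3
    omega
  refine phi_bound P F 0 (Finset.notMem_erase _ _) h0F ?_ hF ?_ ?_ hL
    (hcount.trans (Nat.pow_le_pow_right (by norm_num) hPc))
  · rw [Finset.disjoint_left]
    intro v hv
    exact (Finset.mem_sdiff.1 (Finset.mem_of_mem_erase hv)).2
  · intro V hV
    exact convexPosition_zero_one (hV.trans hPsub)
  · intro v hv i
    have h := Finset.mem_Icc.1 (hPsub hv)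
    have h1 := h.1 i
    have h2 := h.2 i
    simp only [Pi.zero_apply, Pi.one_apply] at h1 h2
    have hkZ : (1:ℤ) ≤ k := by exact_mod_cast hk
    exact ⟨h1, h2.trans hkZ⟩

/-- elementary exponential bound -/
lemma ev_pow_lt (c : ℕ) : ∀ᶠ d : ℕ in atTop, c * (d+1)^2 ≤ 2^d := by
  have h := tendsto_pow_const_div_const_pow_of_one_lt 2 (by norm_num : (1:ℝ) < 2)
  have h2 : Tendsto (fun n : ℕ => ((n+1 : ℕ):ℝ)^2 / (2:ℝ)^(n+1)) atTop (𝓝 0) :=
    h.comp (tendsto_add_atTop_nat 1)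
  have h3 : ∀ᶠ n : ℕ in atTop, ((n+1 : ℕ):ℝ)^2 / (2:ℝ)^(n+1) < 1 / (2 * ((c:ℝ)+1)) :=
    h2.eventually_lt_const (by positivity)
  filter_upwards [h3] with n hn
  rw [div_lt_div_iff₀ (by positivity) (by positivity)] at hn
  have h4 : (c:ℝ) * ((n:ℝ)+1)^2 ≤ 2^n := by
    have e : (2:ℝ)^(n+1) = 2^n * 2 := pow_succ _ _
    rw [e] at hn
    push_cast at hn
    nlinarith [sq_nonneg ((n:ℝ)+1)]
  exact_mod_cast h4

theorem phi_tendsto_dim (k : ℕ) (hk : 1 ≤ k) : Tendsto (fun d => phiExp d k) atTop (𝓝 0) := by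
  have hb : ∀ᶠ d : ℕ in atTop, phiExp d k ≤ 2 / (d : ℝ) := by
    filter_upwards [ev_pow_lt (2*(k+2)+2), eventually_ge_atTop 2] with d h1 h2
    have h3 : 2 * ((k+1)^d+1)^(2*d) ≤ 2^(2^d - d - 2) := by
      have e1 : (k+1)^d + 1 ≤ (2^(k+2))^d := by
        have : k + 2 ≤ 2^(k+2) := Nat.lt_two_pow_self.le
        have e2 : (k+1)^d + 1 ≤ (k+2)^d := by
          have := Nat.pow_lt_pow_left (show k+1 < k+2 by omega) (show d ≠ 0 by omega)
          omega
        exact e2.trans (Nat.pow_le_pow_left this d)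
      calc 2 * ((k+1)^d+1)^(2*d) ≤ 2 * ((2^(k+2))^d)^(2*d) :=
            Nat.mul_le_mul_left _ (Nat.pow_le_pow_left e1 _)
        _ = 2^(1 + (k+2)*d*(2*d)) := by
            rw [← pow_mul, ← pow_mul, pow_add, pow_one, mul_assoc (k+2) d (2*d)]
        _ ≤ 2^(2^d - d - 2) := by
            apply Nat.pow_le_pow_right (by norm_num)
            have : 1 + (k+2)*d*(2*d) + d + 2 ≤ (2*(k+2)+2) * (d+1)^2 := by nlinarith
            omega
    have := phi_dim h2 hk (L := 2*d) (by omega) h3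
    rwa [show 2*d - d = d by omega] at this
  refine tendsto_of_tendsto_of_tendsto_of_le_of_le' tendsto_const_nhds ?_
    (Eventually.of_forall (fun d => phiExp_nonneg d k)) hb
  exact tendsto_const_div_atTop_nhds_zero_nat 2

/-! ### `k → ∞` : points on a parabola -/

/-- parabola point -/
def par {n : ℕ} (i : ℕ) : Pt (n+2) := Fin.cons (i:ℤ) (Fin.cons ((i:ℤ)^2) (fun _ => 0))

/-- apex -/
def apx {n : ℕ} (j : Fin n) : Pt (n+2) := Fin.cons 0 (Fin.cons 0 (Pi.single j 1))

lemma ev_cons {n : ℕ} (a : Fin (n+2) → ℝ) (x y : ℤ) (z : Fin n → ℤ) :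
    ev a (Fin.cons x (Fin.cons y z) : Pt (n+2)) =
      a 0 * x + (a 1 * y + ∑ i : Fin n, a i.succ.succ * (z i : ℝ)) := by
  unfold ev
  rw [Fin.sum_univ_succ, Fin.sum_univ_succ]
  rfl

lemma ev_par {n : ℕ} (a : Fin (n+2) → ℝ) (i : ℕ) :
    ev a (par i) = a 0 * i + a 1 * (i:ℝ)^2 := by
  unfold par
  rw [ev_cons]
  simp

lemma ev_apx {n : ℕ} (a : Fin (n+2) → ℝ) (j : Fin n) :
    ev a (apx j) = a j.succ.succ := by
  unfold apx
  rw [ev_cons]
  simp only [Int.cast_zero, mul_zero, zero_add]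
  rw [Finset.sum_eq_single j]
  · simp
  · intro i _ hi
    rw [Pi.single_eq_of_ne hi]; simp
  · intro h; exact absurd (Finset.mem_univ j) h

lemma par_inj {n : ℕ} {i j : ℕ} (h : (par i : Pt (n+2)) = par j) : i = j := by
  have := congrFun h 0
  simp only [par, Fin.cons_zero] at this
  exact_mod_cast this

lemma par_ne_apx {n : ℕ} {i : ℕ} {j : Fin n} : (par i : Pt (n+2)) ≠ apx j := by
  intro h
  have := congrFun h j.succ.succ
  simp [par, apx, Fin.cons_succ] at this

/-- the point set -/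
def IsPA {n : ℕ} (v : Pt (n+2)) : Prop := (∃ i, v = par i) ∨ (∃ j, v = apx j)

lemma convexPosition_PA {n : ℕ} {V : Finset (Pt (n+2))} (hV : ∀ v ∈ V, IsPA v) :
    ConvexPosition V := by
  intro v hv
  rcases hV v hv with ⟨i, rfl⟩ | ⟨j, rfl⟩
  · refine ⟨Fin.cons (2 * (i:ℝ)) (Fin.cons (-1) (fun _ => -1)), fun u hu hne => ?_⟩
    rcases hV u hu with ⟨i', rfl⟩ | ⟨j', rfl⟩
    · rw [ev_par, ev_par]
      have hii : (i':ℝ) ≠ i := by
        intro h
        apply hne
        rw [show i' = i by exact_mod_cast h]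
      have : 0 < ((i':ℝ) - i)^2 := by
        have : (i':ℝ) - i ≠ 0 := sub_ne_zero.2 hii
        positivity
      have e1 : (Fin.cons (2 * (i:ℝ)) (Fin.cons (-1) (fun _ => -1)) : Fin (n+2) → ℝ) 0 = 2 * (i:ℝ) := rfl
      have e2 : (Fin.cons (2 * (i:ℝ)) (Fin.cons (-1) (fun _ => -1)) : Fin (n+2) → ℝ) 1 = -1 := rfl
      rw [e1, e2]
      nlinarith
    · rw [ev_par, ev_apx]
      have e1 : (Fin.cons (2 * (i:ℝ)) (Fin.cons (-1) (fun _ => -1)) : Fin (n+2) → ℝ) 0 = 2 * (i:ℝ) := rfl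
      have e2 : (Fin.cons (2 * (i:ℝ)) (Fin.cons (-1) (fun _ => -1)) : Fin (n+2) → ℝ) 1 = -1 := rfl
      have e3 : (Fin.cons (2 * (i:ℝ)) (Fin.cons (-1) (fun _ => -1)) : Fin (n+2) → ℝ) j'.succ.succ = -1 := rfl
      rw [e1, e2, e3]
      nlinarith [sq_nonneg (i:ℝ)]
  · refine ⟨Fin.cons 0 (Fin.cons 0 (Pi.single j 1)), fun u hu hne => ?_⟩
    rcases hV u hu with ⟨i', rfl⟩ | ⟨j', rfl⟩
    · rw [ev_par, ev_apx]
      have e1 : (Fin.cons 0 (Fin.cons 0 (Pi.single j 1)) : Fin (n+2) → ℝ) 0 = 0 := rfl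
      have e2 : (Fin.cons 0 (Fin.cons 0 (Pi.single j 1)) : Fin (n+2) → ℝ) 1 = 0 := rfl
      have e3 : (Fin.cons 0 (Fin.cons 0 (Pi.single j 1)) : Fin (n+2) → ℝ) j.succ.succ =
        (Pi.single j 1 : Fin n → ℝ) j := rfl
      rw [e1, e2, e3, Pi.single_eq_same]
      norm_num
    · rw [ev_apx, ev_apx]
      have hjj : j' ≠ j := fun h => hne (by rw [h])
      have e3 : (Fin.cons 0 (Fin.cons 0 (Pi.single j 1)) : Fin (n+2) → ℝ) j.succ.succ =
        (Pi.single j 1 : Fin n → ℝ) j := rfl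
      have e4 : (Fin.cons 0 (Fin.cons 0 (Pi.single j 1)) : Fin (n+2) → ℝ) j'.succ.succ =
        (Pi.single j 1 : Fin n → ℝ) j' := rfl
      rw [e3, e4, Pi.single_eq_same, Pi.single_eq_of_ne hjj]
      norm_num

lemma phi_k {n k s L : ℕ} (hs : s^2 ≤ k) (hs4 : 4 ≤ s) (hL : n + 2 < L)
    (hcount : 2 * ((k+1)^(n+2)+1)^L ≤ 2^(s - 3)) :
    phiExp (n+2) k ≤ 2 / ((L - (n+2) : ℕ) : ℝ) := by
  classical
  set F : Finset (Pt (n+2)) := ({1, 2, 3} : Finset ℕ).image par ∪ Finset.univ.image apx with hFdef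
  set P : Finset (Pt (n+2)) := (Finset.Icc 4 s).image par with hPdef
  have hmF : ∀ v, v ∈ F ↔ (v = par 1 ∨ v = par 2 ∨ v = par 3) ∨ ∃ j, apx j = v := by
    intro v
    rw [hFdef, Finset.mem_union, Finset.mem_image, Finset.mem_image]
    constructor
    · rintro (⟨i, hi, rfl⟩ | ⟨j, -, rfl⟩)
      · simp only [Finset.mem_insert, Finset.mem_singleton] at hi
        rcases hi with rfl | rfl | rfl
        · exact Or.inl (Or.inl rfl)
        · exact Or.inl (Or.inr (Or.inl rfl))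
        · exact Or.inl (Or.inr (Or.inr rfl))
      · exact Or.inr ⟨j, rfl⟩
    · rintro ((rfl | rfl | rfl) | ⟨j, rfl⟩)
      · exact Or.inl ⟨1, by simp, rfl⟩
      · exact Or.inl ⟨2, by simp, rfl⟩
      · exact Or.inl ⟨3, by simp, rfl⟩
      · exact Or.inr ⟨j, Finset.mem_univ _, rfl⟩
  have hmP : ∀ v, v ∈ P ↔ ∃ i, (4 ≤ i ∧ i ≤ s) ∧ par i = v := by
    intro v
    rw [hPdef, Finset.mem_image]
    simp only [Finset.mem_Icc]
  have hPc : #P = s - 3 := by
    rw [hPdef, Finset.card_image_of_injective _ (fun i j h => par_inj h), Nat.card_Icc]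
    omega
  have hF : FullDim F := by
    intro a c hac
    have h1 := hac (par 1) ((hmF _).2 (Or.inl (Or.inl rfl)))
    have h2 := hac (par 2) ((hmF _).2 (Or.inl (Or.inr (Or.inl rfl))))
    have h3 := hac (par 3) ((hmF _).2 (Or.inl (Or.inr (Or.inr rfl))))
    rw [ev_par] at h1 h2 h3
    norm_num at h1 h2 h3
    have ha0 : a 0 = 0 := by linarith
    have ha1 : a 1 = 0 := by linarith
    have hc : c = 0 := by linarith
    have h4 : ∀ j : Fin n, a j.succ.succ = 0 := by
      intro j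
      rw [← ev_apx a j, hac (apx j) ((hmF _).2 (Or.inr ⟨j, rfl⟩)), hc]
    funext i
    refine Fin.cases ha0 (fun i' => ?_) i
    refine Fin.cases ha1 (fun j => h4 j) i'
  have hall : ∀ v ∈ insert (par 0) (P ∪ F), (∃ i, i ≤ s ∧ v = par i) ∨ (∃ j, v = apx j) := by
    intro v hv
    rcases Finset.mem_insert.1 hv with rfl | hv
    · exact Or.inl ⟨0, by omega, rfl⟩
    · rcases Finset.mem_union.1 hv with hv | hv
      · obtain ⟨i, hi, rfl⟩ := (hmP v).1 hv
        exact Or.inl ⟨i, hi.2, rfl⟩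
      · rcases (hmF v).1 hv with (rfl | rfl | rfl) | ⟨j, rfl⟩
        · exact Or.inl ⟨1, by omega, rfl⟩
        · exact Or.inl ⟨2, by omega, rfl⟩
        · exact Or.inl ⟨3, by omega, rfl⟩
        · exact Or.inr ⟨j, rfl⟩
  refine phi_bound P F (par 0) ?_ ?_ ?_ hF ?_ ?_ hL (by rw [hPc]; exact hcount)
  · intro h
    obtain ⟨i, hi, h⟩ := (hmP _).1 h
    have := par_inj h
    omega
  · intro h
    rcases (hmF _).1 h with (h | h | h) | ⟨j, h⟩
    · have := par_inj h; omega
    · have := par_inj h; omega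
    · have := par_inj h; omega
    · exact par_ne_apx h.symm
  · rw [Finset.disjoint_left]
    intro v hv h
    obtain ⟨i, hi, rfl⟩ := (hmP v).1 hv
    rcases (hmF _).1 h with (h | h | h) | ⟨j, h⟩
    · have := par_inj h; omega
    · have := par_inj h; omega
    · have := par_inj h; omega
    · exact par_ne_apx h.symm
  · intro V hV
    apply convexPosition_PA
    intro v hv
    rcases hall v (hV hv) with ⟨i, -, h⟩ | h
    · exact Or.inl ⟨i, h⟩
    · exact Or.inr h
  · intro v hv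
    have hkZ : (s:ℤ)^2 ≤ k := by exact_mod_cast hs
    have hs1 : (4:ℤ) ≤ s := by exact_mod_cast hs4
    rcases hall v hv with ⟨i, hi, rfl⟩ | ⟨j, rfl⟩
    · have hi' : (i:ℤ) ≤ s := by exact_mod_cast hi
      have hi0 : (0:ℤ) ≤ i := Int.natCast_nonneg i
      intro l
      refine Fin.cases ?_ (fun l' => ?_) l
      · simp only [par, Fin.cons_zero]
        exact ⟨hi0, by nlinarith⟩
      · refine Fin.cases ?_ (fun l'' => ?_) l'
        · simp only [par, Fin.cons_succ, Fin.cons_zero]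
          exact ⟨by positivity, by nlinarith⟩
        · simp only [par, Fin.cons_succ]
          exact ⟨le_rfl, by positivity⟩
    · intro l
      refine Fin.cases ?_ (fun l' => ?_) l
      · simp only [apx, Fin.cons_zero]
        exact ⟨le_rfl, by positivity⟩
      · refine Fin.cases ?_ (fun l'' => ?_) l'
        · simp only [apx, Fin.cons_succ, Fin.cons_zero]
          exact ⟨le_rfl, by positivity⟩
        · simp only [apx, Fin.cons_succ]
          by_cases h : l'' = j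
          · rw [h, Pi.single_eq_same]
            exact ⟨by norm_num, by nlinarith⟩
          · rw [Pi.single_eq_of_ne h]
            exact ⟨le_rfl, by positivity⟩

lemma ev_pow_lt' (p : ℕ) : ∀ᶠ s : ℕ in atTop, 2 * ((s+1)^p) ≤ 2^(s-3) := by
  have h := tendsto_pow_const_div_const_pow_of_one_lt p (by norm_num : (1:ℝ) < 2)
  have h2 : Tendsto (fun n : ℕ => ((n+1 : ℕ):ℝ)^p / (2:ℝ)^(n+1)) atTop (𝓝 0) :=
    h.comp (tendsto_add_atTop_nat 1)
  have h3 : ∀ᶠ n : ℕ in atTop, ((n+1 : ℕ):ℝ)^p / (2:ℝ)^(n+1) < 1 / 32 :=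
    h2.eventually_lt_const (by norm_num)
  filter_upwards [h3, eventually_ge_atTop 3] with n hn h3
  rw [div_lt_div_iff₀ (by positivity) (by positivity)] at hn
  have h4 : (n+1)^p * 32 < 1 * 2^(n+1) := by exact_mod_cast hn
  have h5 : 2^(n+1) = 16 * 2^(n-3) := by
    rw [show n+1 = 4 + (n-3) by omega, pow_add]; norm_num
  omega

theorem phi_tendsto_k (d : ℕ) (hd : 2 ≤ d) : Tendsto (fun k => phiExp d k) atTop (𝓝 0) := by
  obtain ⟨n, rfl⟩ : ∃ n, d = n + 2 := ⟨d - 2, by omega⟩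
  rw [Metric.tendsto_atTop']
  intro ε hε
  obtain ⟨l, hl⟩ := exists_nat_gt (2 / ε)
  have hl0 : (0:ℝ) < l := lt_trans (by positivity) hl
  have hlN : 0 < l := by exact_mod_cast hl0
  obtain ⟨s0, hs0⟩ := eventually_atTop.1 (ev_pow_lt' (3*(n+2)*(n+2+l)))
  refine ⟨(max s0 4)^2, fun k hk => ?_⟩
  set s := Nat.sqrt k with hs
  have h1 : s^2 ≤ k := Nat.sqrt_le' k
  have h2 : k < (s+1)^2 := Nat.lt_succ_sqrt' k
  have h3 : max s0 4 ≤ s := by
    rw [hs, Nat.le_sqrt']
    exact hk.le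
  have hs4 : 4 ≤ s := (le_max_right _ _).trans h3
  have h4 := hs0 s ((le_max_left _ _).trans h3)
  have h5 : 2 * ((k+1)^(n+2)+1)^(n+2+l) ≤ 2^(s-3) := by
    refine le_trans (Nat.mul_le_mul_left _ ?_) h4
    have e1 : (k+1)^(n+2)+1 ≤ ((s+1)^3)^(n+2) := by
      have e2 : k + 1 < (s+1)^3 := by nlinarith
      have := Nat.pow_lt_pow_left e2 (show n+2 ≠ 0 by omega)
      omega
    calc ((k+1)^(n+2)+1)^(n+2+l) ≤ (((s+1)^3)^(n+2))^(n+2+l) := Nat.pow_le_pow_left e1 _
      _ = (s+1)^(3*(n+2)*(n+2+l)) := by rw [← pow_mul, ← pow_mul, mul_assoc 3 (n+2) (n+2+l)]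
  have h6 := phi_k h1 hs4 (L := n+2+l) (by omega) h5
  rw [show n+2+l-(n+2) = l by omega] at h6
  rw [Real.dist_eq, sub_zero, abs_of_nonneg (phiExp_nonneg _ _)]
  refine lt_of_le_of_lt h6 ?_
  rw [div_lt_iff₀ hl0]
  rw [div_lt_iff₀ hε] at hl
  linarith

end Pool.Agent.Q254.PolyMove
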